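import Pool.Agent.H73.HR.Lower

/-!
# The case of a binary form `Υ`
-/

namespace Pool.Agent.H73.HR

open Finset
open scoped Pointwise

/-- one step: Ruzsa's triangle inequality -/
theorem ruzsa_step {M : Type*} [AddCommGroup M] [DecidableEq M] {h : ℕ} (φ : Fin (h + 1) → ℤ)
    (A : Finset M) :
    ((A - A).image (fun x => φ 0 • x)).card * (im (fun i : Fin h => φ i.succ) (A : Set M)).ncard ≤
      (im φ (A : Set M)).ncard ^ 2 := by
  classical
  have hfin := im_finite' (fun i : Fin h => φ i.succ) A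
  have hfin' := im_finite' φ A
  set X : Finset M := hfin.toFinset with hX
  set Y : Finset M := A.image (fun x => φ 0 • x) with hY
  have hXc : (im (fun i : Fin h => φ i.succ) (A : Set M)).ncard = X.card :=
    Set.ncard_eq_toFinset_card _ hfin
  have h1 : (A - A).image (fun x => φ 0 • x) ⊆ Y - Y := by
    intro x hx
    rw [Finset.mem_image] at hx
    obtain ⟨d, hd, rfl⟩ := hx
    obtain ⟨a, ha, b, hb, rfl⟩ := Finset.mem_sub.mp hd
    rw [smul_sub]
    exact Finset.sub_mem_sub (Finset.mem_image_of_mem _ ha) (Finset.mem_image_of_mem _ hb)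
  have h2 : Y + X ⊆ hfin'.toFinset := by
    intro x hx
    obtain ⟨y, hy, z, hz, rfl⟩ := Finset.mem_add.mp hx
    rw [hY, Finset.mem_image] at hy
    obtain ⟨a, ha, rfl⟩ := hy
    rw [hX, Set.Finite.mem_toFinset] at hz
    obtain ⟨b, hb, rfl⟩ := hz
    rw [Set.Finite.mem_toFinset]
    refine ⟨Fin.cons a b, ?_, ?_⟩
    · intro i
      refine Fin.cases ?_ ?_ i
      · exact ha
      · intro j
        exact hb j
    · rw [Fin.sum_univ_succ]
      simp
  have h3 := Finset.ruzsa_triangle_inequality_sub_add_add Y X Y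
  rw [hXc]
  have h4 : (Y + X).card ≤ (im φ (A : Set M)).ncard := by
    rw [Set.ncard_eq_toFinset_card _ hfin']
    exact Finset.card_le_card h2
  calc ((A - A).image (fun x => φ 0 • x)).card * X.card ≤ (Y - Y).card * X.card :=
        Nat.mul_le_mul_right _ (Finset.card_le_card h1)
    _ ≤ (Y + X).card * (Y + X).card := h3
    _ ≤ (im φ (A : Set M)).ncard * (im φ (A : Set M)).ncard := Nat.mul_le_mul h4 h4
    _ = _ := (sq _).symm

/-- the chain of inequalities -/
theorem chain {M : Type*} [AddCommGroup M] [DecidableEq M] (A : Finset M) (hA : A.Nonempty)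
    (D K : ℕ) : ∀ (h : ℕ) (φ : Fin h → ℤ),
      (∀ i, D ≤ K * ((A - A).image (fun x => φ i • x)).card) →
      D ^ (2 ^ h - 1) ≤ K ^ (2 ^ h - 1) * (im φ (A : Set M)).ncard ^ (2 ^ h) := by
  intro h
  induction h with
  | zero =>
    intro φ _
    have h1 : 1 ≤ (im φ (A : Set M)).ncard :=
      (Set.ncard_pos (im_finite' φ A)).mpr (im_nonempty (by exact_mod_cast hA))
    simpa using h1
  | succ h ih =>
    intro φ hφ
    have h1 := ih (fun i => φ i.succ) fun i => hφ i.succ
    have h2 := ruzsa_step φ A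
    have h3 := hφ 0
    set X := (im (fun i : Fin h => φ i.succ) (A : Set M)).ncard
    set Z := (im φ (A : Set M)).ncard
    set E := ((A - A).image (fun x => φ 0 • x)).card
    have h4 : D * X ≤ K * Z ^ 2 := by
      calc D * X ≤ K * E * X := Nat.mul_le_mul_right _ h3
        _ = K * (E * X) := by ring
        _ ≤ K * Z ^ 2 := Nat.mul_le_mul_left _ h2
    have h5 : (D * X) ^ (2 ^ h) ≤ (K * Z ^ 2) ^ (2 ^ h) := Nat.pow_le_pow_left h4 _
    have h6 : 2 ^ (h + 1) - 1 = 2 ^ h + (2 ^ h - 1) := by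
      have : 1 ≤ 2 ^ h := Nat.one_le_two_pow
      rw [pow_succ]
      omega
    have h7 : (Z ^ 2) ^ (2 ^ h) = Z ^ (2 ^ (h + 1)) := by
      rw [← pow_mul, pow_succ 2 h, mul_comm]
    calc D ^ (2 ^ (h + 1) - 1) = D ^ (2 ^ h) * D ^ (2 ^ h - 1) := by rw [h6, pow_add]
      _ ≤ D ^ (2 ^ h) * (K ^ (2 ^ h - 1) * X ^ (2 ^ h)) := Nat.mul_le_mul_left _ h1
      _ = K ^ (2 ^ h - 1) * (D * X) ^ (2 ^ h) := by rw [mul_pow]; ring
      _ ≤ K ^ (2 ^ h - 1) * (K * Z ^ 2) ^ (2 ^ h) := Nat.mul_le_mul_left _ h5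
      _ = K ^ (2 ^ (h + 1) - 1) * Z ^ (2 ^ (h + 1)) := by
          rw [mul_pow, h7, h6, pow_add]
          ring

/-- the multiples in a cyclic group -/
theorem card_multiples {m : ℕ} [NeZero m] {a : ℤ} (ha : a ≠ 0) {K : ℕ} (hK : a.natAbs ≤ K) :
    m ≤ K * ((Finset.univ : Finset (ZMod m)).image (fun x => a • x)).card := by
  classical
  have h1 := Finset.card_le_mul_card_image (f := fun x : ZMod m => a • x) Finset.univ a.natAbs ?_
  · rw [Finset.card_univ, ZMod.card] at h1
    exact h1.trans (Nat.mul_le_mul_right _ hK)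
  · intro y hy
    rw [Finset.mem_image] at hy
    obtain ⟨x₀, _, rfl⟩ := hy
    have h2 : ({x ∈ (Finset.univ : Finset (ZMod m)) | a • x = a • x₀} : Finset (ZMod m)).card ≤
        ({x ∈ (Finset.univ : Finset (ZMod m)) | a.natAbs • x = 0} : Finset (ZMod m)).card := by
      refine Finset.card_le_card_of_injOn (fun x => x - x₀) ?_ ?_
      · intro x hx
        have hx' : a • x = a • x₀ := by simpa using hx
        have h3 : a • (x - x₀) = 0 := by rw [smul_sub, hx', sub_self]
        have h4 : a.natAbs • (x - x₀) = 0 := by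
          rw [← natCast_zsmul, Int.natCast_natAbs]
          rcases abs_choice a with h | h
          · rw [h, h3]
          · rw [h, neg_smul, h3, neg_zero]
        simpa using h4
      · intro x _ y _ hxy
        simpa using hxy
    refine h2.trans ?_
    exact IsAddCyclic.card_nsmul_eq_zero_le (Int.natAbs_pos.mpr ha)

end Pool.Agent.H73.HR
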