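import Mathlib

/-!
# The Haight-Ruzsa method

For integers `φ j` all of whose nonempty subset sums act injectively on the finite abelian group `G`
and a proper subset `B` of `G` there are a power `ι → G` and a subset `A` of it such that every
element of the power is a difference of two elements of `A`, and such that every sum of the
`φ j • a j`, `a j ∈ A`, has a coordinate outside `B`.
-/

namespace Pool.Agent.H73.HR

variable {h : ℕ}

/-- every element is a difference of two elements of `A` -/
def Full {M : Type*} [AddCommGroup M] (A : Set M) : Prop :=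
  ∀ g : M, ∃ a ∈ A, ∃ b ∈ A, a - b = g

/-- the nonempty subset sums of `φ` act injectively on `G` -/
def Inj (φ : Fin h → ℤ) (G : Type*) [AddCommGroup G] : Prop :=
  ∀ J : Finset (Fin h), J.Nonempty → Function.Injective fun x : G => (∑ j ∈ J, φ j) • x

/-- avoidance of `B` for the partial forms with at most `ℓ` variables -/
def PP (φ : Fin h → ℤ) (ℓ : ℕ) (G : Type) [AddCommGroup G] (B : Set G) : Prop :=
  ∃ (ι : Type) (_ : Finite ι) (_ : Nonempty ι) (A : Set (ι → G)), Full A ∧
    ∀ J : Finset (Fin h), J.Nonempty → J.card ≤ ℓ → ∀ a : Fin h → ι → G, (∀ j ∈ J, a j ∈ A) →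
      ∃ i, (∑ j ∈ J, φ j • a j) i ∉ B

/-- the same with `K` colours, also for not monochromatic sums with `ℓ + 1` variables -/
def CC (φ : Fin h → ℤ) (ℓ K : ℕ) (G : Type) [AddCommGroup G] (B : Set G) : Prop :=
  ∃ (ι : Type) (_ : Finite ι) (_ : Nonempty ι) (A : Fin K → Set (ι → G)), (∀ c, Full (A c)) ∧
    ∀ J : Finset (Fin h), J.Nonempty → ∀ col : Fin h → Fin K,
      (J.card ≤ ℓ ∨ J.card ≤ ℓ + 1 ∧ ∃ j ∈ J, ∃ j' ∈ J, col j ≠ col j') →
      ∀ a : Fin h → ι → G, (∀ j ∈ J, a j ∈ A (col j)) → ∃ i, (∑ j ∈ J, φ j • a j) i ∉ B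

theorem CC_zero (φ : Fin h → ℤ) (ℓ : ℕ) (G : Type) [AddCommGroup G] (B : Set G) :
    CC φ ℓ 0 G B := by
  refine ⟨Unit, inferInstance, inferInstance, fun c => c.elim0, fun c => c.elim0, ?_⟩
  rintro J ⟨j, _⟩ col
  exact (col j).elim0

theorem CC_succ {φ : Fin h → ℤ} {ℓ K : ℕ} {G : Type} [AddCommGroup G] {B : Set G}
    (hB : B ≠ Set.univ) (hK : CC φ ℓ K G B)
    (hP : ∀ (ι : Type) [Finite ι] (B' : Set (ι → G)), B' ≠ Set.univ → PP φ ℓ (ι → G) B') :
    CC φ ℓ (K + 1) G B := by
  classical
  obtain ⟨ι, _, _, A, hA, hs⟩ := hK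
  set B' : Set (Bool × ι → G) :=
    {z | (∀ p, z p ∈ B) ∨ ∀ b, ∃ i, z (b, i) ≠ 0} with hB'
  have hproper : B' ≠ Set.univ := by
    obtain ⟨g, hg⟩ := (Set.ne_univ_iff_exists_notMem B).mp hB
    intro h
    have hz : (fun p : Bool × ι => if p.1 then (0 : G) else g) ∈ B' := by
      rw [h]; trivial
    rcases hz with hz | hz
    · obtain ⟨i⟩ := ‹Nonempty ι›
      exact hg (by simpa using hz (false, i))
    · obtain ⟨i, hi⟩ := hz true
      simp at hi
  obtain ⟨κ, _, _, N, hN, hsN⟩ := hP (Bool × ι) B' hproper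
  refine ⟨κ × (Bool × ι), inferInstance, inferInstance,
    Fin.cases {z | (fun k p => z (k, p)) ∈ N} fun c => {z | ∀ k b, (fun i => z (k, (b, i))) ∈ A c},
    ?_, ?_⟩
  · refine Fin.cases ?_ ?_
    · intro g
      obtain ⟨a, ha, b, hb, hab⟩ := hN fun k p => g (k, p)
      refine ⟨fun q => a q.1 q.2, ha, fun q => b q.1 q.2, hb, ?_⟩
      funext q
      exact congrFun (congrFun hab q.1) q.2
    · intro c g
      choose a ha b hb hab using fun q : κ × Bool => hA c fun i => g (q.1, (q.2, i))
      refine ⟨fun q => a (q.1, q.2.1) q.2.2, fun k b' => ha (k, b'),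
        fun q => b (q.1, q.2.1) q.2.2, fun k b' => hb (k, b'), ?_⟩
      funext q
      exact congrFun (hab (q.1, q.2.1)) q.2.2
  · intro J hJ col hcol a ha
    set J₁ := J.filter fun j => col j = 0 with hJ₁
    set J₂ := J.filter fun j => ¬col j = 0 with hJ₂
    have hsum : ∑ j ∈ J, φ j • a j = ∑ j ∈ J₁, φ j • a j + ∑ j ∈ J₂, φ j • a j :=
      (Finset.sum_filter_add_sum_filter_not J (fun j => col j = 0) _).symm
    have hcard : J₁.card + J₂.card = J.card :=
      Finset.card_filter_add_card_filter_not (s := J) fun j => col j = 0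
    -- the new colour
    have hnew : ∀ j ∈ J₁, (fun k p => a j (k, p)) ∈ N := by
      intro j hj
      rw [hJ₁, Finset.mem_filter] at hj
      have := ha j hj.1
      rw [hj.2] at this
      exact this
    -- the old colours
    have hold : ∀ (k : κ) (b : Bool), J₂.Nonempty →
        (J₂.card ≤ ℓ ∨ J₂.card ≤ ℓ + 1 ∧ ∃ j ∈ J₂, ∃ j' ∈ J₂, col j ≠ col j') →
        ∃ i, (∑ j ∈ J₂, φ j • a j) (k, (b, i)) ∉ B := by
      intro k b hne hc
      obtain ⟨j₀, hj₀⟩ := hne
      have hj₀' : col j₀ ≠ 0 := (Finset.mem_filter.mp hj₀).2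
      obtain ⟨c₀, hc₀⟩ := Fin.exists_succ_eq.mpr hj₀'
      have hex : ∀ j, ∃ c : Fin K, j ∈ J₂ → c.succ = col j := by
        intro j
        by_cases hj : j ∈ J₂
        · obtain ⟨c, hc⟩ := Fin.exists_succ_eq.mpr (Finset.mem_filter.mp hj).2
          exact ⟨c, fun _ => hc⟩
        · exact ⟨c₀, fun h => absurd h hj⟩
      choose col' hcol' using hex
      have hmem : ∀ j ∈ J₂, (fun i => a j (k, (b, i))) ∈ A (col' j) := by
        intro j hj
        have := ha j (Finset.mem_filter.mp hj).1
        rw [← hcol' j hj] at this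
        exact this k b
      obtain ⟨i, hi⟩ := hs J₂ ⟨j₀, hj₀⟩ col' (by
        rcases hc with hc | ⟨hc, j, hj, j', hj', hne⟩
        · exact Or.inl hc
        · refine Or.inr ⟨hc, j, hj, j', hj', fun h => hne ?_⟩
          rw [← hcol' j hj, ← hcol' j' hj', h]) _ hmem
      refine ⟨i, ?_⟩
      convert hi using 1
      simp only [Finset.sum_apply, Pi.smul_apply]
    rcases J₁.eq_empty_or_nonempty with h1 | h1
    · -- all old
      have hJ2 : J₂ = J := by
        rw [hJ₂, Finset.filter_eq_self]
        intro j hj h0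
        have : j ∈ J₁ := Finset.mem_filter.mpr ⟨hj, h0⟩
        rw [h1] at this
        exact absurd this (Finset.notMem_empty j)
      obtain ⟨k⟩ := ‹Nonempty κ›
      obtain ⟨i, hi⟩ := hold k true (hJ2 ▸ hJ) (by rw [hJ2]; exact hcol)
      refine ⟨(k, (true, i)), ?_⟩
      rw [hJ2] at hi
      exact hi
    · rcases J₂.eq_empty_or_nonempty with h2 | h2
      · -- all new
        have hJ1 : J₁ = J := by
          rw [hJ₁, Finset.filter_eq_self]
          intro j hj
          by_contra h0
          have : j ∈ J₂ := Finset.mem_filter.mpr ⟨hj, h0⟩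
          rw [h2] at this
          exact absurd this (Finset.notMem_empty j)
        have hle : J.card ≤ ℓ := by
          rcases hcol with hcol | ⟨_, j, hj, j', hj', hne⟩
          · exact hcol
          · rw [← hJ1] at hj hj'
            exact absurd ((Finset.mem_filter.mp hj).2.trans (Finset.mem_filter.mp hj').2.symm) hne
        obtain ⟨k, hk⟩ := hsN J hJ hle (fun j k p => a j (k, p)) fun j hj => hnew j (hJ1 ▸ hj)
        have hk' : ¬∀ p, (∑ j ∈ J, φ j • fun k p => a j (k, p)) k p ∈ B := fun h =>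
          hk (Or.inl h)
        push Not at hk'
        obtain ⟨p, hp⟩ := hk'
        refine ⟨(k, p), ?_⟩
        convert hp using 1
        simp only [Finset.sum_apply, Pi.smul_apply]
      · -- mixed
        have hp1 := h1.card_pos
        have hp2 := h2.card_pos
        have hle : J.card ≤ ℓ + 1 := by
          rcases hcol with hcol | ⟨hcol, _⟩ <;> omega
        obtain ⟨k, hk⟩ := hsN J₁ h1 (by omega) (fun j k p => a j (k, p)) fun j hj => hnew j hj
        have hk' : ¬∀ b, ∃ i, (∑ j ∈ J₁, φ j • fun k p => a j (k, p)) k (b, i) ≠ 0 := fun h =>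
          hk (Or.inr h)
        push Not at hk'
        obtain ⟨b, hb⟩ := hk'
        obtain ⟨i, hi⟩ := hold k b h2 (Or.inl (by omega))
        refine ⟨(k, (b, i)), ?_⟩
        rw [hsum, Pi.add_apply]
        have h0 : (∑ j ∈ J₁, φ j • a j) (k, (b, i)) = 0 := by
          have := hb i
          simp only [Finset.sum_apply, Pi.smul_apply] at this ⊢
          exact this
        rw [h0, zero_add]
        exact hi

/-- the choice of the translates in the first block of coordinates -/
theorem exists_shift {φ : Fin h → ℤ} {G : Type} [AddCommGroup G] [Finite G] (hG : Inj φ G)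
    {B : Set G} (hB : B ≠ Set.univ) :
    ∃ n : ℕ, ∀ c : Fin n → G, ∃ x : Fin n → G, ∀ J : Finset (Fin h), J.Nonempty →
      ∀ I : Finset (Fin h), ∃ i, ((∑ j ∈ J, φ j) • x + (∑ j ∈ I, φ j) • c) i ∉ B := by
  classical
  cases nonempty_fintype G
  set b : ℕ := B.toFinset.card with hb
  have hbG : b < Fintype.card G := by
    rw [hb, ← Finset.card_univ]
    apply Finset.card_lt_card
    rw [Finset.ssubset_univ_iff]
    intro h
    exact hB (by rwa [Set.toFinset_eq_univ] at h)
  set C : ℕ := (Finset.univ : Finset (Finset (Fin h) × Finset (Fin h))).card with hC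
  obtain ⟨n, hn⟩ : ∃ n : ℕ, C * b ^ n < Fintype.card G ^ n := by
    have hpos : (0 : ℝ) < Fintype.card G := by
      have : 0 < Fintype.card G := by omega
      exact_mod_cast this
    have hlt : (b : ℝ) / Fintype.card G < 1 := by
      rw [div_lt_one hpos]
      exact_mod_cast hbG
    have hC1 : (0 : ℝ) < 1 / (C + 1) := by positivity
    obtain ⟨n, hn⟩ := exists_pow_lt_of_lt_one hC1 hlt
    refine ⟨n, ?_⟩
    rw [div_pow, div_lt_div_iff₀ (by positivity) (by positivity)] at hn
    have : ((C * b ^ n : ℕ) : ℝ) < ((Fintype.card G ^ n : ℕ) : ℝ) := by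
      push_cast
      have h0 : (0 : ℝ) ≤ (b : ℝ) ^ n := by positivity
      nlinarith
    exact_mod_cast this
  refine ⟨n, fun c => ?_⟩
  by_contra hcon
  push Not at hcon
  have hcover : (Finset.univ : Finset (Fin n → G)) ⊆
      (Finset.univ : Finset (Finset (Fin h) × Finset (Fin h))).biUnion fun q =>
        Finset.univ.filter fun x : Fin n → G => q.1.Nonempty ∧
          ∀ i, ((∑ j ∈ q.1, φ j) • x + (∑ j ∈ q.2, φ j) • c) i ∈ B := by
    intro x _
    obtain ⟨J, hJ, I, hI⟩ := hcon x
    rw [Finset.mem_biUnion]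
    exact ⟨(J, I), Finset.mem_univ _, Finset.mem_filter.mpr ⟨Finset.mem_univ _, hJ, hI⟩⟩
  have hle : ∀ q : Finset (Fin h) × Finset (Fin h),
      (Finset.univ.filter fun x : Fin n → G => q.1.Nonempty ∧
          ∀ i, ((∑ j ∈ q.1, φ j) • x + (∑ j ∈ q.2, φ j) • c) i ∈ B).card ≤ b ^ n := by
    intro q
    by_cases hq : q.1.Nonempty
    · have hpi : (Fintype.piFinset fun _ : Fin n => B.toFinset).card = b ^ n := by
        rw [Fintype.card_piFinset]
        simp [hb]
      rw [← hpi]
      refine Finset.card_le_card_of_injOn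
        (fun x => (∑ j ∈ q.1, φ j) • x + (∑ j ∈ q.2, φ j) • c) ?_ ?_
      · intro x hx
        have hx' := (Finset.mem_filter.mp (Finset.mem_coe.mp hx)).2.2
        rw [Finset.mem_coe, Fintype.mem_piFinset]
        intro i
        rw [Set.mem_toFinset]
        exact hx' i
      · intro x _ y _ hxy
        funext i
        have := congrFun hxy i
        simp only [Pi.add_apply, Pi.smul_apply, add_left_inj] at this
        exact hG q.1 hq this
    · refine le_of_eq_of_le ?_ (Nat.zero_le _)
      rw [Finset.card_eq_zero, Finset.filter_eq_empty_iff]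
      intro x _ hx
      exact hq hx.1
  have h1 := (Finset.card_le_card hcover).trans Finset.card_biUnion_le
  have h2 := h1.trans (Finset.sum_le_card_nsmul _ _ _ fun q _ => hle q)
  rw [Finset.card_univ, Fintype.card_fun, Fintype.card_fin, smul_eq_mul, ← hC] at h2
  omega

theorem PP_succ {φ : Fin h → ℤ} {ℓ : ℕ} {G : Type} [AddCommGroup G] [Finite G] (hG : Inj φ G)
    {B : Set G} (hB : B ≠ Set.univ) (hC : ∀ K, CC φ ℓ K G B) : PP φ (ℓ + 1) G B := by
  classical
  obtain ⟨n, hn⟩ := exists_shift hG hB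
  choose x hx using hn
  cases nonempty_fintype G
  set e := Fintype.equivFin (Fin n → G) with he
  obtain ⟨ι, _, _, A, hA, hs⟩ := hC (Fintype.card (Fin n → G))
  refine ⟨Fin n ⊕ ι, inferInstance, inferInstance,
    {z | ∃ (c : Fin n → G) (s : Bool), (fun i => z (Sum.inl i)) = x c + (if s then c else 0) ∧
      (fun i => z (Sum.inr i)) ∈ A (e c)}, ?_, ?_⟩
  · intro g
    obtain ⟨u, hu, v, hv, huv⟩ := hA (e fun i => g (Sum.inl i)) fun i => g (Sum.inr i)
    refine ⟨Sum.elim (x (fun i => g (Sum.inl i)) + fun i => g (Sum.inl i)) u,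
      ⟨_, true, by funext i; simp, hu⟩, Sum.elim (x fun i => g (Sum.inl i)) v,
      ⟨_, false, by simp, hv⟩, ?_⟩
    funext q
    rcases q with i | i
    · simp
    · exact congrFun huv i
  · intro J hJ hcard a ha
    have hex : ∀ j, ∃ (c : Fin n → G) (s : Bool), j ∈ J →
        (fun i => a j (Sum.inl i)) = x c + (if s then c else 0) ∧
          (fun i => a j (Sum.inr i)) ∈ A (e c) := by
      intro j
      by_cases hj : j ∈ J
      · obtain ⟨c, s, hcs⟩ := ha j hj
        exact ⟨c, s, fun _ => hcs⟩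
      · exact ⟨0, true, fun h => absurd h hj⟩
    choose c s hcs using hex
    by_cases hmono : ∃ j ∈ J, ∃ j' ∈ J, c j ≠ c j'
    · obtain ⟨j, hj, j', hj', hne⟩ := hmono
      obtain ⟨i, hi⟩ := hs J hJ (fun j => e (c j))
        (Or.inr ⟨hcard, j, hj, j', hj', fun h => hne (e.injective h)⟩)
        (fun j i => a j (Sum.inr i)) fun j hj => (hcs j hj).2
      refine ⟨Sum.inr i, ?_⟩
      convert hi using 1
      simp only [Finset.sum_apply, Pi.smul_apply]
    · push Not at hmono
      obtain ⟨j₀, hj₀⟩ := hJ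
      obtain ⟨i, hi⟩ := hx (c j₀) J ⟨j₀, hj₀⟩ (J.filter fun j => s j = true)
      refine ⟨Sum.inl i, ?_⟩
      have key : (∑ j ∈ J, φ j • a j) (Sum.inl i) =
          ((∑ j ∈ J, φ j) • x (c j₀) + (∑ j ∈ J.filter (fun j => s j = true), φ j) • c j₀) i := by
        rw [Finset.sum_apply, Pi.add_apply, Pi.smul_apply, Pi.smul_apply, Finset.sum_smul,
          Finset.sum_smul, Finset.sum_filter, ← Finset.sum_add_distrib]
        refine Finset.sum_congr rfl fun j hj => ?_
        have h1 := congrFun (hcs j hj).1 i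
        rw [Pi.smul_apply, h1, hmono j hj j₀ hj₀, Pi.add_apply, smul_add]
        congr 1
        by_cases hsj : s j = true
        · simp [hsj]
        · simp [hsj]
      rw [key]
      exact hi

theorem Inj.pi {φ : Fin h → ℤ} {G : Type} [AddCommGroup G] (hG : Inj φ G) (ι : Type) :
    Inj φ (ι → G) := by
  intro J hJ x y hxy
  funext i
  exact hG J hJ (congrFun hxy i)

/-- the Haight-Ruzsa theorem in powers of a finite group -/
theorem PP_all (φ : Fin h → ℤ) (ℓ : ℕ) : ∀ (G : Type) [AddCommGroup G] [Finite G], Inj φ G →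
    ∀ B : Set G, B ≠ Set.univ → PP φ ℓ G B := by
  induction ℓ with
  | zero =>
    intro G _ _ _ B _
    refine ⟨Unit, inferInstance, inferInstance, Set.univ,
      fun g => ⟨g, trivial, 0, trivial, sub_zero g⟩, ?_⟩
    intro J hJ hcard
    have := hJ.card_pos
    omega
  | succ ℓ ih =>
    intro G _ _ hG B hB
    refine PP_succ hG hB fun K => ?_
    induction K with
    | zero => exact CC_zero φ ℓ G B
    | succ K ihK =>
      exact CC_succ hB ihK fun ι _ B' hB' => ih (ι → G) (hG.pi ι) B' hB'

end Pool.Agent.H73.HR
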