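import Pool.Agent.H73.HR.Colors

/-!
# From powers of a cyclic group to the integers

A set of vectors over `ZMod q` is lifted to a set of integers through the expansion to the base
`q`; the carries are absorbed by a box of bounded size.
-/

namespace Pool.Agent.H73.HR

open Finset

variable {h : ℕ}

/-- the image of `A` under the form with the coefficients `φ` -/
def im {M : Type*} [AddCommGroup M] {h : ℕ} (φ : Fin h → ℤ) (A : Set M) : Set M :=
  {x | ∃ a : Fin h → M, (∀ i, a i ∈ A) ∧ x = ∑ i, φ i • a i}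

/-- the set of the differences -/
def diffs {M : Type*} [AddCommGroup M] (A : Set M) : Set M :=
  {x | ∃ a ∈ A, ∃ b ∈ A, x = a - b}

theorem im_finite {M : Type*} [AddCommGroup M] {h : ℕ} (φ : Fin h → ℤ) {A : Set M}
    (hA : A.Finite) : (im φ A).Finite := by
  have h1 : {a : Fin h → M | ∀ i, a i ∈ A}.Finite := Set.Finite.pi' fun _ => hA
  refine (h1.image fun a : Fin h → M => ∑ i, φ i • a i).subset ?_
  rintro x ⟨a, ha, rfl⟩
  exact ⟨a, ha, rfl⟩

theorem diffs_finite {M : Type*} [AddCommGroup M] {A : Set M} (hA : A.Finite) :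
    (diffs A).Finite := by
  refine ((hA.prod hA).image fun p : M × M => p.1 - p.2).subset ?_
  rintro x ⟨a, ha, b, hb, rfl⟩
  exact ⟨(a, b), ⟨ha, hb⟩, rfl⟩

/-- digits exist -/
theorem exists_digits {q : ℤ} (hq : 2 ≤ q) (N : ℕ) (r : ℤ) :
    ∃ (z : ℕ → ℤ) (m : ℤ), (∀ j, 0 ≤ z j ∧ z j < q) ∧
      r = ∑ j ∈ range N, z j * q ^ j + m * q ^ N := by
  induction N with
  | zero => exact ⟨fun _ => 0, r, fun _ => ⟨le_rfl, lt_of_lt_of_le two_pos hq⟩, by simp⟩
  | succ N ih =>
    obtain ⟨z, m, hz, hr⟩ := ih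
    refine ⟨Function.update z N (m % q), m / q, ?_, ?_⟩
    · intro j
      by_cases hj : j = N
      · subst hj
        rw [Function.update_self]
        exact ⟨Int.emod_nonneg _ (by omega), Int.emod_lt_of_pos _ (by omega)⟩
      · rw [Function.update_of_ne hj]
        exact hz j
    · rw [Finset.sum_range_succ, Function.update_self]
      have h1 : ∑ j ∈ range N, Function.update z N (m % q) j * q ^ j =
          ∑ j ∈ range N, z j * q ^ j := by
        refine Finset.sum_congr rfl fun j hj => ?_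
        rw [Function.update_of_ne (by rw [Finset.mem_range] at hj; omega)]
      rw [h1, hr, pow_succ]
      have h2 := Int.emod_add_mul_ediv m q
      linear_combination (-(q ^ N)) * h2

/-- the carries are bounded -/
theorem carry {q : ℤ} (hq : 2 ≤ q) {S : ℤ} (hS : 0 ≤ S) (N : ℕ) (y : ℕ → ℤ)
    (hy : ∀ j, |y j| ≤ S * q) (j : ℕ) (hj : j ≤ N) :
    ∃ t : ℤ, |t| ≤ 2 * S + 2 ∧
      (∑ i ∈ range N, y i * q ^ i) / q ^ j = t + ∑ i ∈ Ico j N, y i * q ^ (i - j) := by
  induction j with
  | zero =>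
    refine ⟨0, by simp; omega, ?_⟩
    simp
  | succ j ih =>
    obtain ⟨t, ht, he⟩ := ih (by omega)
    refine ⟨(t + y j) / q, ?_, ?_⟩
    · have h1 := abs_le.mp ht
      have h2 := abs_le.mp (hy j)
      have hq0 : 0 < q := by omega
      rw [abs_le]
      constructor
      · rw [Int.le_ediv_iff_mul_le hq0]
        nlinarith
      · have : (t + y j) / q < 2 * S + 3 := by
          rw [Int.ediv_lt_iff_lt_mul hq0]
          nlinarith
        omega
    · rw [pow_succ, ← Int.ediv_ediv_of_nonneg (by positivity), he,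
        Finset.sum_eq_sum_Ico_succ_bot (by omega : j < N)]
      have h3 : ∑ i ∈ Ico (j + 1) N, y i * q ^ (i - j) =
          q * ∑ i ∈ Ico (j + 1) N, y i * q ^ (i - (j + 1)) := by
        rw [Finset.mul_sum]
        refine Finset.sum_congr rfl fun i hi => ?_
        rw [Finset.mem_Ico] at hi
        have : i - j = (i - (j + 1)) + 1 := by omega
        rw [this, pow_succ]
        ring
      rw [h3, Nat.sub_self, pow_zero, mul_one, ← add_assoc, Int.add_mul_ediv_left _ _ (by omega)]

/-- the digits of an integer modulo `q` -/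
def dig (q N : ℕ) (n : ℤ) : Fin N → ZMod q := fun j => ((n / (q : ℤ) ^ (j : ℕ) : ℤ) : ZMod q)

theorem dig_inj {q N : ℕ} (hq : 2 ≤ q) {n n' : ℤ} (h : dig q N n = dig q N n')
    (h' : n / (q : ℤ) ^ N = n' / (q : ℤ) ^ N) : n = n' := by
  have key : ∀ k ≤ N, n / (q : ℤ) ^ (N - k) = n' / (q : ℤ) ^ (N - k) := by
    intro k
    induction k with
    | zero => intro _; simpa using h'
    | succ k ih =>
      intro hk
      have ihk := ih (by omega)
      have hj : N - (k + 1) < N := by omega
      have h1 := congrFun h ⟨N - (k + 1), hj⟩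
      have h2 : (n / (q : ℤ) ^ (N - (k + 1))) % q = (n' / (q : ℤ) ^ (N - (k + 1))) % q := by
        have := (ZMod.intCast_eq_intCast_iff _ _ q).mp h1
        exact this
      have h3 : ∀ n : ℤ, n / (q : ℤ) ^ (N - k) = (n / (q : ℤ) ^ (N - (k + 1))) / q := by
        intro n
        rw [Int.ediv_ediv_of_nonneg (by positivity), ← pow_succ]
        congr 2
        omega
      rw [h3, h3] at ihk
      rw [← Int.emod_add_mul_ediv (n / (q : ℤ) ^ (N - (k + 1))) q,
        ← Int.emod_add_mul_ediv (n' / (q : ℤ) ^ (N - (k + 1))) q, h2, ihk]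
  have := key N le_rfl
  simpa using this

/-- the integers with digits in `A`, with an additional vector of zeros and ones -/
def lifted (q N : ℕ) (A : Set (Fin N → ZMod q)) : Set ℤ :=
  {n | ∃ a ∈ A, ∃ e : ℕ → ℤ, (∀ j, e j = 0 ∨ e j = 1) ∧
    n = ∑ j ∈ range N, ((if hj : j < N then ((a ⟨j, hj⟩).val : ℤ) else 0) + e j) * (q : ℤ) ^ j}

theorem lifted_bound {q N : ℕ} [NeZero q] {A : Set (Fin N → ZMod q)} {n : ℤ}
    (hn : n ∈ lifted q N A) : 0 ≤ n ∧ n ≤ ∑ j ∈ range N, (q : ℤ) * (q : ℤ) ^ j := by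
  obtain ⟨a, _, e, he, rfl⟩ := hn
  have h0 : ∀ j, 0 ≤ (if hj : j < N then ((a ⟨j, hj⟩).val : ℤ) else 0) + e j ∧
      (if hj : j < N then ((a ⟨j, hj⟩).val : ℤ) else 0) + e j ≤ q := by
    intro j
    have hq : (1 : ℤ) ≤ q := by
      have := Nat.pos_of_ne_zero (NeZero.ne q)
      exact_mod_cast this
    have h1 : 0 ≤ e j ∧ e j ≤ 1 := by rcases he j with h | h <;> rw [h] <;> norm_num
    split_ifs with hj
    · have := ZMod.val_lt (a ⟨j, hj⟩)
      constructor <;> omega
    · constructor <;> omega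
  constructor
  · exact Finset.sum_nonneg fun j _ => mul_nonneg (h0 j).1 (by positivity)
  · exact Finset.sum_le_sum fun j _ => mul_le_mul_of_nonneg_right (h0 j).2 (by positivity)

theorem lifted_diff {q N : ℕ} (hq : 2 ≤ q) [NeZero q] {A : Set (Fin N → ZMod q)} (hA : Full A)
    (r : ℤ) : ∃ x ∈ lifted q N A, ∃ y ∈ lifted q N A, ∃ m : ℤ, x - y = r + m * (q : ℤ) ^ N := by
  have hq' : (2 : ℤ) ≤ q := by exact_mod_cast hq
  obtain ⟨z, m, hz, hr⟩ := exists_digits hq' N r
  obtain ⟨a, ha, b, hb, hab⟩ := hA fun j => ((z j : ℤ) : ZMod q)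
  set a' : ℕ → ℤ := fun j => if hj : j < N then ((a ⟨j, hj⟩).val : ℤ) else 0 with ha'
  set b' : ℕ → ℤ := fun j => if hj : j < N then ((b ⟨j, hj⟩).val : ℤ) else 0 with hb'
  have hc : ∀ j, ∃ c : ℤ, (c = 0 ∨ c = 1) ∧ (j < N → a' j - b' j = z j - q * c) := by
    intro j
    by_cases hj : j < N
    · have h1 : ((a' j - b' j : ℤ) : ZMod q) = ((z j : ℤ) : ZMod q) := by
        have := congrFun hab ⟨j, hj⟩
        simp only [Pi.sub_apply] at this
        rw [← this, ha', hb']
        simp only [dif_pos hj]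
        push_cast
        rw [ZMod.natCast_zmod_val, ZMod.natCast_zmod_val]
      have h2 := (ZMod.intCast_eq_intCast_iff_dvd_sub _ _ q).mp h1
      obtain ⟨c, hc⟩ := h2
      have ha2 : 0 ≤ a' j ∧ a' j < q := by
        simp only [ha', dif_pos hj]
        have := ZMod.val_lt (a ⟨j, hj⟩)
        constructor <;> omega
      have hb2 : 0 ≤ b' j ∧ b' j < q := by
        simp only [hb', dif_pos hj]
        have := ZMod.val_lt (b ⟨j, hj⟩)
        constructor <;> omega
      have hz2 := hz j
      refine ⟨c, ?_, fun _ => by omega⟩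
      have h3 : -(q : ℤ) < q * c := by omega
      have h4 : (q : ℤ) * c < 2 * q := by omega
      have h5 : -1 < c := by nlinarith
      have h6 : c < 2 := by nlinarith
      omega
    · exact ⟨0, Or.inl rfl, fun h => absurd h hj⟩
  choose c hc1 hc2 using hc
  refine ⟨_, ⟨a, ha, fun j => if j = 0 then 0 else c (j - 1), ?_, rfl⟩,
    _, ⟨b, hb, fun _ => 0, fun _ => Or.inl rfl, rfl⟩, ?_⟩
  · intro j
    simp only
    split_ifs
    · exact Or.inl rfl
    · exact hc1 _
  · have hmain : ∀ M ≤ N, ∑ j ∈ range M, (a' j + if j = 0 then 0 else c (j - 1)) * (q : ℤ) ^ j -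
        ∑ j ∈ range M, (b' j + 0) * (q : ℤ) ^ j = ∑ j ∈ range M, z j * (q : ℤ) ^ j -
          (if M = 0 then 0 else c (M - 1)) * (q : ℤ) ^ M := by
      intro M
      induction M with
      | zero => intro _; simp
      | succ M ih =>
        intro hM
        have ih' := ih (by omega)
        rw [Finset.sum_range_succ, Finset.sum_range_succ, Finset.sum_range_succ,
          if_neg (by omega : M + 1 ≠ 0), Nat.add_sub_cancel, pow_succ]
        have h7 := hc2 M (by omega)
        linear_combination ih' + (q : ℤ) ^ M * h7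
    refine ⟨-m - (if N = 0 then 0 else c (N - 1)), ?_⟩
    have h8 := hmain N le_rfl
    rw [hr]
    linear_combination h8

theorem im_lifted {φ : Fin h → ℤ} {q N : ℕ} (hq : 2 ≤ q) [NeZero q]
    {A : Set (Fin N → ZMod q)} {S : ℤ} (hS : ∑ i, |φ i| ≤ S) {n : ℤ}
    (hn : n ∈ im φ (lifted q N A)) :
    |n / (q : ℤ) ^ N| ≤ 2 * S + 2 ∧ ∃ (a : Fin h → Fin N → ZMod q) (t : Fin N → ℤ),
      (∀ j, a j ∈ A) ∧ (∀ i, |t i| ≤ 3 * S + 2) ∧
      dig q N n = fun i => (∑ j, φ j • a j) i + (t i : ZMod q) := by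
  obtain ⟨x, hx, rfl⟩ := hn
  choose a ha e he hxe using hx
  have hq' : (2 : ℤ) ≤ q := by exact_mod_cast hq
  have hS0 : 0 ≤ S := le_trans (Finset.sum_nonneg fun i _ => abs_nonneg _) hS
  set a' : Fin h → ℕ → ℤ := fun i j => if hj : j < N then ((a i ⟨j, hj⟩).val : ℤ) else 0 with ha'
  have hav : ∀ i j, 0 ≤ a' i j + e i j ∧ a' i j + e i j ≤ q := by
    intro i j
    have h1 : 0 ≤ e i j ∧ e i j ≤ 1 := by rcases he i j with h | h <;> rw [h] <;> norm_num
    simp only [ha']
    split_ifs with hj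
    · have := ZMod.val_lt (a i ⟨j, hj⟩)
      constructor <;> omega
    · constructor <;> omega
  set y : ℕ → ℤ := fun j => ∑ i, φ i * (a' i j + e i j) with hy
  have hyb : ∀ j, |y j| ≤ S * q := by
    intro j
    refine (Finset.abs_sum_le_sum_abs _ _).trans ?_
    refine le_trans (Finset.sum_le_sum fun i _ => ?_)
      (le_trans (le_of_eq (Finset.sum_mul _ _ _).symm)
        (mul_le_mul_of_nonneg_right hS (by omega)))
    rw [abs_mul]
    refine mul_le_mul_of_nonneg_left ?_ (abs_nonneg _)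
    rw [abs_of_nonneg (hav i j).1]
    exact (hav i j).2
  have hsum : ∑ i, φ i • x i = ∑ j ∈ range N, y j * (q : ℤ) ^ j := by
    simp only [hy, Finset.sum_mul]
    rw [Finset.sum_comm]
    refine Finset.sum_congr rfl fun i _ => ?_
    rw [hxe i, smul_eq_mul, Finset.mul_sum]
    exact Finset.sum_congr rfl fun j _ => by ring
  rw [hsum]
  constructor
  · obtain ⟨t, ht, hte⟩ := carry hq' hS0 N y hyb N le_rfl
    rw [hte, Finset.Ico_self, Finset.sum_empty, add_zero]
    exact ht
  · choose t ht hte using fun j : Fin N => carry hq' hS0 N y hyb (j : ℕ) j.2.le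
    refine ⟨a, fun j => t j + ∑ i, φ i * e i j, ha, ?_, ?_⟩
    · intro j
      have h1 : |∑ i, φ i * e i j| ≤ S := by
        refine (Finset.abs_sum_le_sum_abs _ _).trans (le_trans (Finset.sum_le_sum fun i _ => ?_) hS)
        rw [abs_mul]
        rcases he i j with h | h <;> rw [h] <;> simp
      calc |t j + ∑ i, φ i * e i j| ≤ |t j| + |∑ i, φ i * e i j| := abs_add_le _ _
        _ ≤ (2 * S + 2) + S := add_le_add (ht j) h1
        _ = 3 * S + 2 := by ring
    · funext j
      rw [dig, hte j, Finset.sum_eq_sum_Ico_succ_bot j.2, Nat.sub_self, pow_zero, mul_one]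
      have h2 : ∑ i ∈ Ico ((j : ℕ) + 1) N, y i * (q : ℤ) ^ (i - (j : ℕ)) =
          q * ∑ i ∈ Ico ((j : ℕ) + 1) N, y i * (q : ℤ) ^ (i - ((j : ℕ) + 1)) := by
        rw [Finset.mul_sum]
        refine Finset.sum_congr rfl fun i hi => ?_
        rw [Finset.mem_Ico] at hi
        have : i - (j : ℕ) = (i - ((j : ℕ) + 1)) + 1 := by omega
        rw [this, pow_succ]
        ring
      rw [h2]
      push_cast
      rw [ZMod.natCast_self, zero_mul, add_zero, hy]
      simp only [Finset.sum_apply, Pi.smul_apply, ha', dif_pos j.2]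
      push_cast
      simp only [mul_add, Finset.sum_add_distrib, zsmul_eq_mul, ZMod.natCast_zmod_val]
      ring

/-- transfer to the integers -/
theorem transfer {φ : Fin h → ℤ} {q N : ℕ} (hq : 2 ≤ q) [NeZero q]
    {A : Set (Fin N → ZMod q)} (hA : Full A) {S : ℕ} (hS : ∑ i, |φ i| ≤ S)
    (W : Finset (Fin N → ZMod q))
    (hW : ∀ a : Fin h → Fin N → ZMod q, (∀ j, a j ∈ A) → ∀ t : Fin N → ℤ,
      (∀ i, |t i| ≤ 3 * S + 2) → (fun i => (∑ j, φ j • a j) i + (t i : ZMod q)) ∈ W)
    (hcard : (4 * S + 5) * W.card < q ^ N) :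
    ∃ A' : Finset ℤ, (im φ (A' : Set ℤ)).ncard < (diffs (A' : Set ℤ)).ncard := by
  classical
  have hq' : (2 : ℤ) ≤ q := by exact_mod_cast hq
  have hfin : (lifted q N A).Finite := by
    refine (Set.finite_Icc (0 : ℤ) (∑ j ∈ range N, (q : ℤ) * (q : ℤ) ^ j)).subset fun n hn => ?_
    exact lifted_bound hn
  refine ⟨hfin.toFinset, ?_⟩
  rw [Set.Finite.coe_toFinset]
  have h1 : (im φ (lifted q N A)).ncard ≤ (4 * S + 5) * W.card := by
    have h2 : (im φ (lifted q N A)).ncard ≤
        ((W ×ˢ Finset.Icc (-(2 * S + 2 : ℤ)) (2 * S + 2) :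
          Finset ((Fin N → ZMod q) × ℤ)) : Set ((Fin N → ZMod q) × ℤ)).ncard := by
      refine Set.ncard_le_ncard_of_injOn (fun n => (dig q N n, n / (q : ℤ) ^ N)) ?_ ?_
        (Finset.finite_toSet _)
      · intro n hn
        obtain ⟨hb, a, t, ha, ht, hd⟩ := im_lifted hq hS hn
        rw [Finset.mem_coe, Finset.mem_product]
        refine ⟨?_, ?_⟩
        · simp only
          rw [hd]
          exact hW a ha t ht
        · rw [Finset.mem_Icc]
          exact abs_le.mp hb
      · intro n _ n' _ hnn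
        simp only [Prod.mk.injEq] at hnn
        exact dig_inj hq hnn.1 hnn.2
    rw [Set.ncard_coe_finset, Finset.card_product, Int.card_Icc] at h2
    refine h2.trans (le_of_eq ?_)
    rw [mul_comm]
    congr 1
    omega
  have h3 : q ^ N ≤ (diffs (lifted q N A)).ncard := by
    have hpos : 0 < q ^ N := by positivity
    have hne : NeZero (q ^ N) := ⟨hpos.ne'⟩
    have h4 : (Set.univ : Set (ZMod (q ^ N))).ncard ≤ (diffs (lifted q N A)).ncard := by
      have h5 : (Set.univ : Set (ZMod (q ^ N))) ⊆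
          (fun n : ℤ => (n : ZMod (q ^ N))) '' diffs (lifted q N A) := by
        intro x _
        obtain ⟨r, rfl⟩ := ZMod.intCast_surjective x
        obtain ⟨u, hu, v, hv, m, huv⟩ := lifted_diff hq hA r
        refine ⟨u - v, ⟨u, hu, v, hv, rfl⟩, ?_⟩
        simp only
        rw [huv]
        push_cast
        have : ((q : ZMod (q ^ N)) ^ N) = 0 := by
          have := ZMod.natCast_self (q ^ N)
          push_cast at this
          exact this
        rw [this, mul_zero, add_zero]
      exact (Set.ncard_le_ncard h5 ((diffs_finite hfin).image _)).trans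
        (Set.ncard_image_le (diffs_finite hfin))
    rw [Set.ncard_univ, Nat.card_zmod] at h4
    exact h4
  omega

end Pool.Agent.H73.HR
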