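import Pool.Agent.H73.HR.Upper

/-!
# The growth of the least modulus
-/

namespace Pool.Agent.H73.HR

open Finset Filter Topology

variable {g h : ℕ}

theorem tendsto_x : Tendsto (fun ε : ℝ => Real.log (1 / ε)) (𝓝[>] 0) atTop := by
  have h1 : (fun ε : ℝ => Real.log (1 / ε)) = fun ε => -Real.log ε := by
    funext ε
    rw [one_div, Real.log_inv]
  rw [h1]
  exact tendsto_neg_atBot_atTop.comp Real.tendsto_log_nhdsGT_zero

/-- the differences of the values of `Υ` are bounded -/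
theorem exists_sep (υ : Fin g → ℤ) (A₀ : Finset ℤ) :
    ∃ D : ℕ, ∀ x ∈ im υ (A₀ : Set ℤ), ∀ y ∈ im υ (A₀ : Set ℤ), (x - y).natAbs ≤ D := by
  classical
  set V := (im_finite' υ A₀).toFinset with hV
  refine ⟨∑ q ∈ V ×ˢ V, (q.1 - q.2).natAbs, fun x hx y hy => ?_⟩
  have hmem : (x, y) ∈ V ×ˢ V := Finset.mem_product.mpr
    ⟨(Set.Finite.mem_toFinset _).mpr hx, (Set.Finite.mem_toFinset _).mpr hy⟩
  exact Finset.single_le_sum (f := fun q : ℤ × ℤ => (q.1 - q.2).natAbs)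
    (fun _ _ => Nat.zero_le _) hmem

theorem isUnit_of_prime {a : ℤ} (ha : a ≠ 0) {p : ℕ} (hp : p.Prime) (h : a.natAbs < p) :
    IsUnit ((a : ℤ) : ZMod p) := by
  have hfact : Fact p.Prime := ⟨hp⟩
  rw [isUnit_iff_ne_zero, Ne, ZMod.intCast_zmod_eq_zero_iff_dvd]
  intro hd
  have h1 := Int.natAbs_dvd_natAbs.mpr hd
  rw [Int.natAbs_natCast] at h1
  have h2 := Nat.le_of_dvd (Int.natAbs_pos.mpr ha) h1
  omega

theorem eventually_upper {υ : Fin g → ℤ} {φ : Fin h → ℤ} (hυ : ∀ i, υ i ≠ 0) (i₀ : Fin g)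
    (A₀ : Finset ℤ) (h1 : 2 ≤ (im υ (A₀ : Set ℤ)).ncard)
    (hlt : (im φ (A₀ : Set ℤ)).ncard < (im υ (A₀ : Set ℤ)).ncard) {c : ℝ}
    (hc : Real.log (im υ (A₀ : Set ℤ)).ncard /
      (Real.log (im υ (A₀ : Set ℤ)).ncard - Real.log (im φ (A₀ : Set ℤ)).ncard) < c) :
    ∀ᶠ ε : ℝ in 𝓝[>] 0, HasProp υ φ ε (mm υ φ ε) ∧
      Real.log (mm υ φ ε) ≤ c * Real.log (1 / ε) := by
  have hAne : (A₀ : Set ℤ).Nonempty := by
    refine nonempty_of_im i₀.pos (υ := υ) ?_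
    rw [← Set.ncard_pos (im_finite' υ A₀)]
    omega
  have hN2 : 1 ≤ (im φ (A₀ : Set ℤ)).ncard :=
    (Set.ncard_pos (im_finite' φ A₀)).mpr (im_nonempty hAne)
  obtain ⟨D, hD⟩ := exists_sep υ A₀
  obtain ⟨M, hM⟩ : ∃ M, M = (υ i₀).natAbs := ⟨_, rfl⟩
  have hprime := fun k p (h1 : 0 < p) (h2 : IsUnit ((υ i₀ : ℤ) : ZMod p)) =>
    gen_prop (υ := υ) (φ := φ) (k := k) (p := p) h1 h2 hD
  generalize hN1' : (im υ (A₀ : Set ℤ)).ncard = N1 at *
  generalize hN2' : (im φ (A₀ : Set ℤ)).ncard = N2 at *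
  have hN1R : (2 : ℝ) ≤ N1 := by exact_mod_cast h1
  have hN2R : (1 : ℝ) ≤ N2 := by exact_mod_cast hN2
  have hL1 : 0 < Real.log N1 := Real.log_pos (by linarith)
  have hρ : 0 < Real.log N1 - Real.log N2 := by
    have := Real.log_lt_log (by linarith : (0 : ℝ) < N2) (by exact_mod_cast hlt : (N2 : ℝ) < N1)
    linarith
  obtain ⟨c₁, hc1, hc2⟩ := exists_between hc
  have hc1pos : 0 < c₁ := lt_trans (div_pos hL1 hρ) hc1
  set β : ℝ := c₁ / Real.log N1 with hβ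
  have hβpos : 0 < β := div_pos hc1pos hL1
  set γ : ℝ := (Real.log N1 - Real.log N2) - 1 / β with hγ
  have hγpos : 0 < γ := by
    rw [hγ, hβ, one_div_div, sub_pos, div_lt_iff₀ hc1pos]
    rw [div_lt_iff₀ hρ] at hc1
    linarith
  -- the choice of `k`
  have hk : Tendsto (fun ε : ℝ => ⌈β * Real.log (1 / ε)⌉₊) (𝓝[>] 0) atTop :=
    tendsto_nat_ceil_atTop.comp (tendsto_x.const_mul_atTop hβpos)
  have hE1 : ∀ᶠ k : ℕ in atTop, 2 * (((D : ℝ) + 1) * ((N1 : ℝ) + 2)) ^ h * (k : ℝ) ^ h < Real.exp γ ^ k := by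
    have h2 := tendsto_pow_const_div_const_pow_of_one_lt h (Real.one_lt_exp_iff.mpr hγpos)
    have h3 := h2.eventually (gt_mem_nhds (show (0 : ℝ) < 1 / (2 * (((D : ℝ) + 1) * ((N1 : ℝ) + 2)) ^ h) by
      positivity))
    filter_upwards [h3] with k hk
    rw [div_lt_div_iff₀ (by positivity) (by positivity), one_mul] at hk
    linarith
  have hE2 : ∀ᶠ k : ℕ in atTop, 2 * (M + 1) ≤ N1 ^ k :=
    (tendsto_pow_atTop_atTop_of_one_lt (by omega : 1 < N1)).eventually_ge_atTop _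
  have hE3 : ∀ᶠ k : ℕ in atTop, 1 ≤ k := eventually_ge_atTop 1
  have hE4 : ∀ᶠ ε : ℝ in 𝓝[>] 0, Real.log N1 / (c - c₁) ≤ Real.log (1 / ε) :=
    tendsto_x.eventually_ge_atTop _
  have hE5 : ∀ᶠ ε : ℝ in 𝓝[>] 0, 0 ≤ Real.log (1 / ε) := tendsto_x.eventually_ge_atTop _
  have hE6 : ∀ᶠ ε : ℝ in 𝓝[>] 0, 0 < ε := eventually_mem_nhdsWithin
  filter_upwards [hk.eventually hE1, hk.eventually hE2, hk.eventually hE3, hE4, hE5, hE6] with
    ε e1 e2 e3 e4 e5 e6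
  set x : ℝ := Real.log (1 / ε) with hx
  set k : ℕ := ⌈β * x⌉₊ with hkdef
  have hkx : β * x ≤ k := Nat.le_ceil _
  have hkx' : (k : ℝ) < β * x + 1 := Nat.ceil_lt_add_one (by positivity)
  have hεx : ε = Real.exp (-x) := by
    rw [hx, one_div, Real.log_inv, neg_neg, Real.exp_log e6]
  -- the prime
  obtain ⟨p, hp, hp1, hp2⟩ := Nat.exists_prime_lt_and_le_two_mul (N1 ^ k / 2) (by omega)
  have hpk : p ≤ N1 ^ k := by omega
  have hpM : M < p := by omega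
  have hp3 : N1 ^ k ≤ 2 * p := by omega
  obtain ⟨B, hB1, hB2⟩ := hprime k p hp.pos (isUnit_of_prime (hυ i₀) hp (hM ▸ hpM)) hpk
  have hlog : (D + 1) * (Nat.log 2 p + 1) + 1 ≤ ((D + 1) * (N1 + 2)) * k := by
    have h4 : Nat.log 2 p ≤ N1 * k := by
      have h5 : p ≤ 2 ^ (N1 * k) := by
        rw [pow_mul]
        exact hpk.trans (Nat.pow_le_pow_left Nat.lt_two_pow_self.le k)
      calc Nat.log 2 p ≤ Nat.log 2 (2 ^ (N1 * k)) := Nat.log_mono_right h5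
        _ = N1 * k := Nat.log_pow (by norm_num) _
    have h6 : (D + 1) * (Nat.log 2 p + 1) ≤ (D + 1) * (N1 * k + 1) :=
      Nat.mul_le_mul_left _ (by omega)
    have h7 : (D + 1) * 1 ≤ (D + 1) * k := Nat.mul_le_mul_left _ e3
    have h8 : ((D + 1) * (N1 + 2)) * k = (D + 1) * (N1 * k) + (D + 1) * k + (D + 1) * k := by ring
    have h9 : (D + 1) * (N1 * k + 1) = (D + 1) * (N1 * k) + (D + 1) * 1 := by ring
    omega
  have hprop : HasProp υ φ ε p := by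
    refine ⟨hp.pos, B, hB1, ?_⟩
    have h6 : ((im φ B).ncard : ℝ) ≤
        (N2 : ℝ) ^ k * ((((D : ℝ) + 1) * ((N1 : ℝ) + 2)) * k) ^ h := by
      have h7 : (im φ B).ncard ≤ N2 ^ k * (((D + 1) * (N1 + 2)) * k) ^ h :=
        hB2.trans (Nat.mul_le_mul_left _ (Nat.pow_le_pow_left hlog h))
      exact_mod_cast h7
    have h8 : (N1 : ℝ) ^ k ≤ 2 * p := by exact_mod_cast hp3
    have h9 : Real.exp γ ^ k * (N2 : ℝ) ^ k ≤ ε * (N1 : ℝ) ^ k := by
      have h10 : (N1 : ℝ) ^ k = Real.exp (k * Real.log N1) := by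
        rw [mul_comm, Real.exp_mul, Real.exp_log (by linarith), Real.rpow_natCast]
      have h11 : (N2 : ℝ) ^ k = Real.exp (k * Real.log N2) := by
        rw [mul_comm, Real.exp_mul, Real.exp_log (by linarith), Real.rpow_natCast]
      have h12 : Real.exp γ ^ k = Real.exp (k * γ) := by
        rw [mul_comm, Real.exp_mul, Real.rpow_natCast]
      rw [h10, h11, h12, hεx, ← Real.exp_add, ← Real.exp_add]
      apply Real.exp_le_exp.mpr
      have h13 : x ≤ k / β := by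
        rw [le_div_iff₀ hβpos]
        linarith
      rw [hγ]
      have h14 : (k : ℝ) * ((Real.log N1 - Real.log N2) - 1 / β) + k * Real.log N2 =
          k * Real.log N1 - k / β := by ring
      rw [h14]
      linarith
    have hN2k : (0 : ℝ) < (N2 : ℝ) ^ k := by positivity
    calc ((im φ B).ncard : ℝ) ≤
        (N2 : ℝ) ^ k * ((((D : ℝ) + 1) * ((N1 : ℝ) + 2)) * k) ^ h := h6
      _ = (N2 : ℝ) ^ k * (2 * (((D : ℝ) + 1) * ((N1 : ℝ) + 2)) ^ h * (k : ℝ) ^ h) / 2 := by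
          rw [mul_pow _ (k : ℝ)]; ring
      _ < (N2 : ℝ) ^ k * Real.exp γ ^ k / 2 := by
          have := mul_lt_mul_of_pos_left e1 hN2k
          linarith
      _ ≤ ε * (N1 : ℝ) ^ k / 2 := by linarith
      _ ≤ ε * p := by
          have := mul_le_mul_of_nonneg_left h8 e6.le
          linarith
  have hmem : HasProp υ φ ε (mm υ φ ε) := Nat.sInf_mem (s := {m | HasProp υ φ ε m}) ⟨p, hprop⟩
  refine ⟨hmem, ?_⟩
  have hle : mm υ φ ε ≤ N1 ^ k := (Nat.sInf_le hprop).trans hpk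
  have h15 : Real.log (mm υ φ ε) ≤ k * Real.log N1 := by
    rw [← Real.log_pow]
    refine Real.log_le_log ?_ ?_
    · exact_mod_cast hmem.1
    · exact_mod_cast hle
  have h16 : (k : ℝ) * Real.log N1 ≤ (β * x + 1) * Real.log N1 :=
    mul_le_mul_of_nonneg_right hkx'.le hL1.le
  have h17 : β * Real.log N1 = c₁ := by
    rw [hβ, div_mul_cancel₀ _ hL1.ne']
  have h18 : Real.log N1 ≤ (c - c₁) * x := by
    rw [div_le_iff₀ (by linarith)] at e4
    linarith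
  calc Real.log (mm υ φ ε) ≤ (β * x + 1) * Real.log N1 := h15.trans h16
    _ = (β * Real.log N1) * x + Real.log N1 := by ring
    _ ≤ c * x := by rw [h17]; linarith

/-- the growth of the least modulus -/
theorem limit {υ : Fin g → ℤ} {φ : Fin h → ℤ} (hh : 0 < h) (hυ : ∀ i, υ i ≠ 0)
    (hφ0 : ∀ i, φ i ≠ 0) (h0 : ∃ I : Finset (Fin g), I.Nonempty ∧ ∑ i ∈ I, υ i = 0)
    (hφ : ∀ J : Finset (Fin h), J.Nonempty → ∑ j ∈ J, φ j ≠ 0) :
    Tendsto (fun ε : ℝ => Real.log (mm υ φ ε) / Real.log (1 / ε)) (𝓝[>] 0)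
      (𝓝 (1 / (1 - theta υ φ))) := by
  obtain ⟨hθ1, hθ2⟩ := theta_bounds hh hυ hφ0 h0 hφ
  have hg : 0 < g := by
    obtain ⟨I, ⟨i, _⟩, _⟩ := h0
    exact i.pos
  have hpos : 0 < 1 - theta υ φ := by linarith
  -- upper bound
  have hup : ∀ b, 1 / (1 - theta υ φ) < b → ∀ᶠ ε : ℝ in 𝓝[>] 0, HasProp υ φ ε (mm υ φ ε) ∧
      Real.log (mm υ φ ε) ≤ b * Real.log (1 / ε) := by
    intro b hb
    have hb0 : 0 < b := lt_trans (by positivity) hb
    have hθb : theta υ φ < 1 - 1 / b := by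
      rw [div_lt_iff₀ hpos] at hb
      have : 1 / b < 1 - theta υ φ := by
        rw [div_lt_iff₀ hb0]
        linarith
      linarith
    obtain ⟨I, hI, hI0⟩ := h0
    obtain ⟨A, hA⟩ := exists_small hh hφ
    have hlt : (im φ (A : Set ℤ)).ncard < (im υ (A : Set ℤ)).ncard :=
      lt_of_lt_of_le hA (diffs_le hυ hI hI0 A)
    have hAne : (A : Set ℤ).Nonempty := by
      refine nonempty_of_im hg (υ := υ) ?_
      rw [← Set.ncard_pos (im_finite' υ A)]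
      omega
    have h1 : 1 ≤ (im φ (A : Set ℤ)).ncard :=
      (Set.ncard_pos (im_finite' φ A)).mpr (im_nonempty hAne)
    obtain ⟨r, ⟨A₀, hA₀, rfl⟩, hr⟩ := exists_lt_of_csInf_lt
      (s := {r | ∃ A : Finset ℤ, 2 ≤ (im υ (A : Set ℤ)).ncard ∧
        r = Real.log (im φ (A : Set ℤ)).ncard / Real.log (im υ (A : Set ℤ)).ncard})
      ⟨_, A, by omega, rfl⟩ hθb
    have hN1 : (2 : ℝ) ≤ ((im υ (A₀ : Set ℤ)).ncard : ℝ) := by exact_mod_cast hA₀
    have hL1 : 0 < Real.log (im υ (A₀ : Set ℤ)).ncard := Real.log_pos (by linarith)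
    rw [div_lt_iff₀ hL1] at hr
    have hA₀ne : (A₀ : Set ℤ).Nonempty := by
      refine nonempty_of_im hg (υ := υ) ?_
      rw [← Set.ncard_pos (im_finite' υ A₀)]
      omega
    have hN2 : 1 ≤ (im φ (A₀ : Set ℤ)).ncard :=
      (Set.ncard_pos (im_finite' φ A₀)).mpr (im_nonempty hA₀ne)
    have h2 : Real.log (im φ (A₀ : Set ℤ)).ncard < Real.log (im υ (A₀ : Set ℤ)).ncard := by
      have : 0 < 1 / b * Real.log (im υ (A₀ : Set ℤ)).ncard := by positivity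
      linarith
    have h3 : (im φ (A₀ : Set ℤ)).ncard < (im υ (A₀ : Set ℤ)).ncard := by
      have := (Real.log_lt_log_iff (by exact_mod_cast hN2) (by linarith)).mp h2
      exact_mod_cast this
    refine eventually_upper hυ ⟨0, hg⟩ A₀ hA₀ h3 ?_
    rw [div_lt_iff₀ (by linarith)]
    have h4 : b * (1 / b) = 1 := by field_simp
    nlinarith
  obtain ⟨S, hS⟩ : ∃ S : ℕ, ∑ i, |φ i| = S :=
    ⟨(∑ i, |φ i|).toNat, (Int.toNat_of_nonneg (Finset.sum_nonneg fun i _ => abs_nonneg _)).symm⟩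
  have hlt1 : ∀ᶠ ε : ℝ in 𝓝[>] 0, ε < 1 :=
    (gt_mem_nhds (zero_lt_one)).filter_mono nhdsWithin_le_nhds
  have hpos' : ∀ᶠ ε : ℝ in 𝓝[>] 0, 0 < ε := eventually_mem_nhdsWithin
  have hxpos : ∀ᶠ ε : ℝ in 𝓝[>] 0, 1 ≤ Real.log (1 / ε) := tendsto_x.eventually_ge_atTop _
  rw [tendsto_order]
  constructor
  · intro a ha
    -- lower bound
    have ha' : a * (1 - theta υ φ) < 1 := by rwa [lt_div_iff₀ hpos] at ha
    have hlarge : ∀ᶠ ε : ℝ in 𝓝[>] 0,
        (Real.log (2 * S + 1) + 1) / (1 - a * (1 - theta υ φ)) ≤ Real.log (1 / ε) :=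
      tendsto_x.eventually_ge_atTop _
    filter_upwards [hlt1, hpos', hxpos, hlarge, hup (1 / (1 - theta υ φ) + 1) (by linarith)] with
      ε e1 e2 e3 e4 e5
    have h5 := lower hg hS e2 e1 e5.1
    rw [lt_div_iff₀ (by linarith)]
    rw [div_le_iff₀ (by linarith)] at e4
    have h6 : (1 - theta υ φ) * (a * Real.log (1 / ε)) < (1 - theta υ φ) * Real.log (mm υ φ ε) := by
      nlinarith
    exact lt_of_mul_lt_mul_left h6 hpos.le
  · intro b hb
    obtain ⟨b', hb1, hb2⟩ := exists_between hb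
    filter_upwards [hxpos, hup b' hb1] with ε e3 e5
    rw [div_lt_iff₀ (by linarith)]
    nlinarith [e5.2]

end Pool.Agent.H73.HR
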