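import Pool.Agent.H73.HR.Small

/-!
# The exponent and the lower bound
-/

namespace Pool.Agent.H73.HR

open Finset

variable {g h : ℕ}

/-- `Z/mZ` has the property `(Υ, Φ, ε)` -/
def HasProp (υ : Fin g → ℤ) (φ : Fin h → ℤ) (ε : ℝ) (m : ℕ) : Prop :=
  0 < m ∧ ∃ A : Set (ZMod m), im υ A = Set.univ ∧ ((im φ A).ncard : ℝ) < ε * m

/-- the least `m` such that `Z/mZ` has the property `(Υ, Φ, ε)` -/
noncomputable def mm (υ : Fin g → ℤ) (φ : Fin h → ℤ) (ε : ℝ) : ℕ := sInf {m | HasProp υ φ ε m}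

/-- the infimum of `log |Φ(A)| / log |Υ(A)|` over the finite sets `A` of integers -/
noncomputable def theta (υ : Fin g → ℤ) (φ : Fin h → ℤ) : ℝ :=
  sInf {r | ∃ A : Finset ℤ, 2 ≤ (im υ (A : Set ℤ)).ncard ∧
    r = Real.log (im φ (A : Set ℤ)).ncard / Real.log (im υ (A : Set ℤ)).ncard}

theorem im_finite' {M : Type*} [AddCommGroup M] (φ : Fin h → ℤ) (A : Finset M) :
    (im φ (A : Set M)).Finite := im_finite φ A.finite_toSet

theorem im_nonempty {M : Type*} [AddCommGroup M] {φ : Fin h → ℤ} {A : Set M} (hA : A.Nonempty) :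
    (im φ A).Nonempty := by
  obtain ⟨a, ha⟩ := hA
  exact ⟨_, fun _ => a, fun _ => ha, rfl⟩

theorem nonempty_of_im {M : Type*} [AddCommGroup M] {υ : Fin g → ℤ} (hg : 0 < g) {A : Set M}
    (hA : (im υ A).Nonempty) : A.Nonempty := by
  obtain ⟨_, a, ha, _⟩ := hA
  exact ⟨a ⟨0, hg⟩, ha _⟩

/-- `|Υ(A)| ≥ |A - A|` -/
theorem diffs_le {υ : Fin g → ℤ} (hυ : ∀ i, υ i ≠ 0) {I : Finset (Fin g)} (hI : I.Nonempty)
    (h0 : ∑ i ∈ I, υ i = 0) (A : Finset ℤ) :
    (diffs (A : Set ℤ)).ncard ≤ (im υ (A : Set ℤ)).ncard := by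
  classical
  obtain ⟨i₀, hi₀⟩ := hI
  rcases A.eq_empty_or_nonempty with rfl | ⟨c, hc⟩
  · have : diffs ((∅ : Finset ℤ) : Set ℤ) = ∅ := by
      ext x
      simp [diffs]
    rw [this, Set.ncard_empty]
    exact Nat.zero_le _
  · refine Set.ncard_le_ncard_of_injOn
      (fun x => υ i₀ * x + (∑ i ∈ Finset.univ \ I, υ i) * c) ?_ ?_ (im_finite' υ A)
    · rintro x ⟨a, ha, b, hb, rfl⟩
      refine ⟨fun i => if i = i₀ then a else if i ∈ I then b else c, ?_, ?_⟩
      · intro i
        simp only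
        split_ifs
        · exact ha
        · exact hb
        · exact hc
      · have hsplit : ∑ i, υ i • (if i = i₀ then a else if i ∈ I then b else c) =
            ∑ i ∈ I, υ i • (if i = i₀ then a else if i ∈ I then b else c) +
              ∑ i ∈ Finset.univ \ I, υ i • (if i = i₀ then a else if i ∈ I then b else c) := by
          rw [add_comm]
          exact (Finset.sum_sdiff (Finset.subset_univ I)).symm
        rw [hsplit]
        have h1 : ∑ i ∈ Finset.univ \ I, υ i • (if i = i₀ then a else if i ∈ I then b else c) =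
            (∑ i ∈ Finset.univ \ I, υ i) * c := by
          rw [Finset.sum_mul]
          refine Finset.sum_congr rfl fun i hi => ?_
          have hi' : i ∉ I := (Finset.mem_sdiff.mp hi).2
          have hne : i ≠ i₀ := by
            rintro rfl
            exact hi' hi₀
          rw [if_neg hne, if_neg hi', smul_eq_mul]
        have h2 : ∑ i ∈ I, υ i • (if i = i₀ then a else if i ∈ I then b else c) =
            υ i₀ * (a - b) := by
          have h3 : ∑ i ∈ I, υ i • (if i = i₀ then a else if i ∈ I then b else c) =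
              ∑ i ∈ I, (υ i * b + if i = i₀ then υ i * (a - b) else 0) := by
            refine Finset.sum_congr rfl fun i hi => ?_
            by_cases h : i = i₀
            · rw [if_pos h, if_pos h, smul_eq_mul]
              ring
            · rw [if_neg h, if_neg h, if_pos hi, smul_eq_mul, add_zero]
          rw [h3, Finset.sum_add_distrib, ← Finset.sum_mul, h0, zero_mul, zero_add,
            Finset.sum_ite_eq' I i₀, if_pos hi₀]
        rw [h1, h2]
    · intro x _ y _ hxy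
      simp only [add_left_inj] at hxy
      exact mul_left_cancel₀ (hυ i₀) hxy

/-- `|A| ≤ |Φ(A)|` -/
theorem card_le_im {φ : Fin h → ℤ} (hh : 0 < h) (hφ : ∀ i, φ i ≠ 0) (A : Finset ℤ) :
    A.card ≤ (im φ (A : Set ℤ)).ncard := by
  classical
  rcases A.eq_empty_or_nonempty with rfl | ⟨c, hc⟩
  · simp
  · rw [← Set.ncard_coe_finset A]
    set i₀ : Fin h := ⟨0, hh⟩ with hi₀
    refine Set.ncard_le_ncard_of_injOn
      (fun x => φ i₀ * x + ∑ i ∈ Finset.univ.erase i₀, φ i * c) ?_ ?_ (im_finite' φ A)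
    · intro x hx
      refine ⟨fun i => if i = i₀ then x else c, ?_, ?_⟩
      · intro i
        simp only
        split_ifs
        · exact hx
        · exact hc
      · rw [← Finset.add_sum_erase _ _ (Finset.mem_univ i₀)]
        simp only [if_true, smul_eq_mul]
        congr 1
        refine Finset.sum_congr rfl fun i hi => ?_
        rw [if_neg (Finset.ne_of_mem_erase hi)]
    · intro x _ y _ hxy
      simp only [add_left_inj] at hxy
      exact mul_left_cancel₀ (hφ i₀) hxy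

/-- `|Υ(A)| ≤ |A| ^ g` -/
theorem im_le_pow (υ : Fin g → ℤ) (A : Finset ℤ) :
    (im υ (A : Set ℤ)).ncard ≤ A.card ^ g := by
  classical
  have h1 : im υ (A : Set ℤ) ⊆ ((Fintype.piFinset fun _ : Fin g => A).image
      fun a => ∑ i, υ i • a i : Finset ℤ) := by
    rintro x ⟨a, ha, rfl⟩
    rw [Finset.mem_coe]
    exact Finset.mem_image_of_mem _ (Fintype.mem_piFinset.mpr ha)
  refine (Set.ncard_le_ncard h1 (Finset.finite_toSet _)).trans ?_
  rw [Set.ncard_coe_finset]
  refine Finset.card_image_le.trans ?_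
  rw [Fintype.card_piFinset]
  simp

/-- lifting to the integers -/
theorem exists_lift {υ : Fin g → ℤ} {φ : Fin h → ℤ} {m : ℕ} (hm : 0 < m) {S : ℕ}
    (hS : ∑ i, |φ i| = S) {A : Set (ZMod m)} (hA : im υ A = Set.univ) :
    ∃ A' : Finset ℤ, m ≤ (im υ (A' : Set ℤ)).ncard ∧
      (im φ (A' : Set ℤ)).ncard ≤ (2 * S + 1) * (im φ A).ncard := by
  classical
  have hne : NeZero m := ⟨hm.ne'⟩
  have hm' : (0 : ℤ) < m := by exact_mod_cast hm
  set A' : Finset ℤ := (Finset.Ico (0 : ℤ) m).filter fun n => (n : ZMod m) ∈ A with hA'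
  have hmem : ∀ n : ℤ, n ∈ A' ↔ (0 ≤ n ∧ n < m) ∧ (n : ZMod m) ∈ A := by
    intro n
    rw [hA', Finset.mem_filter, Finset.mem_Ico]
  refine ⟨A', ?_, ?_⟩
  · have h1 : (Set.univ : Set (ZMod m)) ⊆ (fun n : ℤ => (n : ZMod m)) '' im υ (A' : Set ℤ) := by
      intro x _
      have hx : x ∈ im υ A := by rw [hA]; trivial
      obtain ⟨a, ha, rfl⟩ := hx
      refine ⟨_, ⟨fun i => ((a i).val : ℤ), ?_, rfl⟩, ?_⟩
      · intro i
        rw [Finset.mem_coe, hmem]
        have := ZMod.val_lt (a i)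
        simp only
        refine ⟨⟨by omega, by omega⟩, ?_⟩
        rw [Int.cast_natCast, ZMod.natCast_zmod_val]
        exact ha i
      · simp only
        push_cast
        refine Finset.sum_congr rfl fun i _ => ?_
        rw [smul_eq_mul, zsmul_eq_mul]
        push_cast
        rw [ZMod.natCast_zmod_val]
    have h2 := (Set.ncard_le_ncard h1 ((im_finite' υ A').image _)).trans
      (Set.ncard_image_le (im_finite' υ A'))
    rw [Set.ncard_univ, Nat.card_zmod] at h2
    exact h2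
  · have hfin : (im φ A).Finite := Set.toFinite _
    have h2 : (im φ (A' : Set ℤ)).ncard ≤
        (((hfin.toFinset ×ˢ Finset.Icc (-(S : ℤ)) S : Finset (ZMod m × ℤ)) :
          Set (ZMod m × ℤ))).ncard := by
      refine Set.ncard_le_ncard_of_injOn (fun n => ((n : ZMod m), n / (m : ℤ))) ?_ ?_
        (Finset.finite_toSet _)
      · rintro n ⟨a, ha, rfl⟩
        have ha' : ∀ i, (0 ≤ a i ∧ a i < m) ∧ (a i : ZMod m) ∈ A := fun i =>
          (hmem _).mp (Finset.mem_coe.mp (ha i))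
        rw [Finset.mem_coe, Finset.mem_product]
        refine ⟨?_, ?_⟩
        · rw [Set.Finite.mem_toFinset]
          refine ⟨fun i => (a i : ZMod m), fun i => (ha' i).2, ?_⟩
          simp only
          push_cast
          refine Finset.sum_congr rfl fun i _ => ?_
          rw [smul_eq_mul, zsmul_eq_mul]
          push_cast
          rfl
        · have hb : |∑ i, φ i • a i| ≤ S * m := by
            refine (Finset.abs_sum_le_sum_abs _ _).trans ?_
            rw [← hS, Finset.sum_mul]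
            refine Finset.sum_le_sum fun i _ => ?_
            rw [smul_eq_mul, abs_mul]
            refine mul_le_mul_of_nonneg_left ?_ (abs_nonneg _)
            rw [abs_of_nonneg (ha' i).1.1]
            exact (ha' i).1.2.le
          have hb' := abs_le.mp hb
          rw [Finset.mem_Icc]
          constructor
          · rw [Int.le_ediv_iff_mul_le hm']
            linarith [hb'.1]
          · have h3 : (∑ i, φ i • a i) / (m : ℤ) < S + 1 := by
              rw [Int.ediv_lt_iff_lt_mul hm']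
              nlinarith [hb'.2]
            simp only
            omega
      · intro n _ n' _ hnn
        simp only [Prod.mk.injEq] at hnn
        have h3 := (ZMod.intCast_eq_intCast_iff _ _ m).mp hnn.1
        have h4 : n % (m : ℤ) = n' % (m : ℤ) := h3
        rw [← Int.emod_add_mul_ediv n m, ← Int.emod_add_mul_ediv n' m, h4, hnn.2]
    rw [Set.ncard_coe_finset, Finset.card_product, Int.card_Icc,
      ← Set.ncard_eq_toFinset_card _ hfin] at h2
    refine h2.trans (le_of_eq ?_)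
    rw [mul_comm]
    congr 1
    omega

theorem theta_set_nonneg {υ : Fin g → ℤ} {φ : Fin h → ℤ} {r : ℝ}
    (hr : r ∈ {r | ∃ A : Finset ℤ, 2 ≤ (im υ (A : Set ℤ)).ncard ∧
      r = Real.log (im φ (A : Set ℤ)).ncard / Real.log (im υ (A : Set ℤ)).ncard}) : 0 ≤ r := by
  obtain ⟨A, _, rfl⟩ := hr
  exact div_nonneg (Real.log_natCast_nonneg _) (Real.log_natCast_nonneg _)

theorem theta_le {υ : Fin g → ℤ} {φ : Fin h → ℤ} (A : Finset ℤ)
    (hA : 2 ≤ (im υ (A : Set ℤ)).ncard) : theta υ φ ≤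
      Real.log (im φ (A : Set ℤ)).ncard / Real.log (im υ (A : Set ℤ)).ncard :=
  csInf_le ⟨0, fun _ hr => theta_set_nonneg hr⟩ ⟨A, hA, rfl⟩

theorem theta_nonneg (υ : Fin g → ℤ) (φ : Fin h → ℤ) : 0 ≤ theta υ φ :=
  Real.sInf_nonneg fun _ hr => theta_set_nonneg hr

/-- the lower bound for the image of `A` -/
theorem lower_core {υ : Fin g → ℤ} {φ : Fin h → ℤ} (hg : 0 < g) {S : ℕ} (hS : ∑ i, |φ i| = S)
    {m : ℕ} (hm2 : 2 ≤ m) {A : Set (ZMod m)} (hA : im υ A = Set.univ) :
    (m : ℝ) ^ theta υ φ ≤ (2 * S + 1) * (im φ A).ncard := by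
  have hm0 : 0 < m := by omega
  obtain ⟨A', hA1, hA2⟩ := exists_lift (φ := φ) hm0 hS hA
  have hmR : (0 : ℝ) < m := by exact_mod_cast hm0
  have h3 := theta_le (φ := φ) A' (hm2.trans hA1)
  have hN1 : (2 : ℝ) ≤ ((im υ (A' : Set ℤ)).ncard : ℝ) := by exact_mod_cast hm2.trans hA1
  have hlogN1 : 0 < Real.log (im υ (A' : Set ℤ)).ncard := Real.log_pos (by linarith)
  rw [le_div_iff₀ hlogN1] at h3
  have hA'ne : (A' : Set ℤ).Nonempty := by
    refine nonempty_of_im hg (υ := υ) ?_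
    rw [← Set.ncard_pos (im_finite' υ A')]
    omega
  have hN2pos : (0 : ℝ) < ((im φ (A' : Set ℤ)).ncard : ℝ) := by
    have := (Set.ncard_pos (im_finite' φ A')).mpr (im_nonempty (φ := φ) hA'ne)
    exact_mod_cast this
  have h4 : ((im φ (A' : Set ℤ)).ncard : ℝ) ≤ (2 * S + 1) * ((im φ A).ncard : ℝ) := by
    exact_mod_cast hA2
  have h5 : (m : ℝ) ^ theta υ φ ≤ ((im υ (A' : Set ℤ)).ncard : ℝ) ^ theta υ φ :=
    Real.rpow_le_rpow hmR.le (by exact_mod_cast hA1) (theta_nonneg υ φ)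
  have h6 : ((im υ (A' : Set ℤ)).ncard : ℝ) ^ theta υ φ ≤ ((im φ (A' : Set ℤ)).ncard : ℝ) := by
    rw [Real.rpow_def_of_pos (by linarith), mul_comm, ← Real.exp_log hN2pos]
    exact Real.exp_le_exp.mpr h3
  exact h5.trans (h6.trans h4)

theorem lower_log {υ : Fin g → ℤ} {φ : Fin h → ℤ} (hg : 0 < g) {S : ℕ} (hS : ∑ i, |φ i| = S)
    {m : ℕ} (hm2 : 2 ≤ m) {A : Set (ZMod m)} (hA : im υ A = Set.univ) :
    theta υ φ * Real.log m ≤ Real.log (2 * S + 1) + Real.log (im φ A).ncard := by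
  have hm0 : 0 < m := by omega
  have hne : NeZero m := ⟨hm0.ne'⟩
  have hmR : (0 : ℝ) < m := by exact_mod_cast hm0
  have hAne : A.Nonempty := nonempty_of_im hg (by rw [hA]; exact Set.univ_nonempty)
  have h1 : 1 ≤ (im φ A).ncard :=
    (Set.ncard_pos (Set.toFinite _)).mpr (im_nonempty (φ := φ) hAne)
  have h1' : (0 : ℝ) < ((im φ A).ncard : ℝ) := by exact_mod_cast h1
  have h2 := lower_core (φ := φ) hg hS hm2 hA
  have h3 := Real.log_le_log (by positivity) h2
  rw [Real.log_rpow hmR, Real.log_mul (by positivity) h1'.ne'] at h3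
  exact h3

theorem two_le {υ : Fin g → ℤ} {φ : Fin h → ℤ} (hg : 0 < g) {ε : ℝ} (hε1 : ε ≤ 1) {m : ℕ}
    (hm : HasProp υ φ ε m) : 2 ≤ m := by
  obtain ⟨hm0, A, hA, hc⟩ := hm
  have hne : NeZero m := ⟨hm0.ne'⟩
  have hAne : A.Nonempty := nonempty_of_im hg (by rw [hA]; exact Set.univ_nonempty)
  have h1 : 1 ≤ (im φ A).ncard :=
    (Set.ncard_pos (Set.toFinite _)).mpr (im_nonempty (φ := φ) hAne)
  by_contra hlt
  have : m = 1 := by omega
  subst this
  have h2 : (1 : ℝ) ≤ ((im φ A).ncard : ℝ) := by exact_mod_cast h1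
  push_cast at hc
  linarith

/-- the lower bound for the modulus -/
theorem lower {υ : Fin g → ℤ} {φ : Fin h → ℤ} (hg : 0 < g) {S : ℕ} (hS : ∑ i, |φ i| = S) {ε : ℝ}
    (hε : 0 < ε) (hε1 : ε < 1) {m : ℕ} (hm : HasProp υ φ ε m) :
    Real.log (1 / ε) - Real.log (2 * S + 1) ≤ (1 - theta υ φ) * Real.log m := by
  have hm2 := two_le hg hε1.le hm
  obtain ⟨hm0, A, hA, hc⟩ := hm
  have hne : NeZero m := ⟨hm0.ne'⟩
  have hmR : (0 : ℝ) < m := by exact_mod_cast hm0
  have hAne : A.Nonempty := nonempty_of_im hg (by rw [hA]; exact Set.univ_nonempty)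
  have h1 : 1 ≤ (im φ A).ncard :=
    (Set.ncard_pos (Set.toFinite _)).mpr (im_nonempty (φ := φ) hAne)
  have h1' : (0 : ℝ) < ((im φ A).ncard : ℝ) := by exact_mod_cast h1
  have h2 := lower_log (φ := φ) hg hS hm2 hA
  have h3 : Real.log (im φ A).ncard ≤ Real.log ε + Real.log m := by
    rw [← Real.log_mul hε.ne' hmR.ne']
    exact Real.log_le_log h1' hc.le
  rw [Real.log_div one_ne_zero hε.ne', Real.log_one]
  linarith

/-- the bounds of the exponent -/
theorem theta_bounds {υ : Fin g → ℤ} {φ : Fin h → ℤ} (hh : 0 < h) (hυ : ∀ i, υ i ≠ 0)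
    (hφ0 : ∀ i, φ i ≠ 0) (h0 : ∃ I : Finset (Fin g), I.Nonempty ∧ ∑ i ∈ I, υ i = 0)
    (hφ : ∀ J : Finset (Fin h), J.Nonempty → ∑ j ∈ J, φ j ≠ 0) :
    1 / (g : ℝ) ≤ theta υ φ ∧ theta υ φ < 1 := by
  obtain ⟨I, hI, hI0⟩ := h0
  have hg : 0 < g := by
    obtain ⟨i, _⟩ := hI
    exact i.pos
  obtain ⟨A, hA⟩ := exists_small hh hφ
  have hlt : (im φ (A : Set ℤ)).ncard < (im υ (A : Set ℤ)).ncard :=
    lt_of_lt_of_le hA (diffs_le hυ hI hI0 A)
  have hAne : (A : Set ℤ).Nonempty := by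
    refine nonempty_of_im hg (υ := υ) ?_
    rw [← Set.ncard_pos (im_finite' υ A)]
    omega
  have h1 : 1 ≤ (im φ (A : Set ℤ)).ncard :=
    (Set.ncard_pos (im_finite' φ A)).mpr (im_nonempty hAne)
  have h2 : 2 ≤ (im υ (A : Set ℤ)).ncard := by omega
  constructor
  · refine le_csInf ⟨_, A, h2, rfl⟩ ?_
    rintro r ⟨B, hB, rfl⟩
    have hB1 : (2 : ℝ) ≤ ((im υ (B : Set ℤ)).ncard : ℝ) := by exact_mod_cast hB
    have hlogN1 : 0 < Real.log (im υ (B : Set ℤ)).ncard := Real.log_pos (by linarith)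
    have hgR : (0 : ℝ) < g := by exact_mod_cast hg
    rw [div_le_div_iff₀ hgR hlogN1, one_mul]
    have h3 : (im υ (B : Set ℤ)).ncard ≤ (im φ (B : Set ℤ)).ncard ^ g :=
      (im_le_pow υ B).trans (Nat.pow_le_pow_left (card_le_im hh hφ0 B) g)
    have h4 : ((im υ (B : Set ℤ)).ncard : ℝ) ≤ ((im φ (B : Set ℤ)).ncard : ℝ) ^ g := by
      exact_mod_cast h3
    have h5 := Real.log_le_log (by linarith) h4
    rw [Real.log_pow] at h5
    linarith
  · refine lt_of_le_of_lt (theta_le A h2) ?_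
    have hB1 : (2 : ℝ) ≤ ((im υ (A : Set ℤ)).ncard : ℝ) := by exact_mod_cast h2
    have hlogN1 : 0 < Real.log (im υ (A : Set ℤ)).ncard := Real.log_pos (by linarith)
    rw [div_lt_one hlogN1]
    refine Real.log_lt_log ?_ ?_
    · exact_mod_cast h1
    · exact_mod_cast hlt

end Pool.Agent.H73.HR
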