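import Pool.Agent.H73.HR.Limit

/-!
# The least image in a given cyclic group
-/

namespace Pool.Agent.H73.HR

open Finset Filter Topology

variable {g h : ℕ}

/-- the least size of `Φ(A)`, over the sets `A` in `Z/mZ` with `Υ(A) = Z/mZ` -/
noncomputable def mu (υ : Fin g → ℤ) (φ : Fin h → ℤ) (m : ℕ) : ℕ :=
  sInf {n | ∃ A : Set (ZMod m), im υ A = Set.univ ∧ n = (im φ A).ncard}

/-- the moduli prime to a coefficient of `Υ` -/
def good (υ : Fin g → ℤ) : Set ℕ := {m | ∃ i, IsCoprime (υ i) (m : ℤ)}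

theorem isUnit_of_good {a : ℤ} {m : ℕ} (h : IsCoprime a (m : ℤ)) : IsUnit ((a : ℤ) : ZMod m) := by
  obtain ⟨u, v, huv⟩ := h
  refine IsUnit.of_mul_eq_one (u : ZMod m) ?_
  have h1 : ((u * a + v * (m : ℤ) : ℤ) : ZMod m) = ((1 : ℤ) : ZMod m) := by rw [huv]
  push_cast at h1
  rw [ZMod.natCast_self, mul_zero, add_zero] at h1
  rw [mul_comm]
  exact h1

theorem mu_mem {υ : Fin g → ℤ} (φ : Fin h → ℤ) {m : ℕ} (hm : m ∈ good υ) :
    ∃ A : Set (ZMod m), im υ A = Set.univ ∧ mu υ φ m = (im φ A).ncard := by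
  obtain ⟨i, hi⟩ := hm
  have hu := isUnit_of_good hi
  refine Nat.sInf_mem (s := {n | ∃ A : Set (ZMod m), im υ A = Set.univ ∧ n = (im φ A).ncard})
    ⟨_, Set.univ, ?_, rfl⟩
  refine Set.eq_univ_of_forall fun x => ⟨fun j => if j = i then (υ i : ZMod m)⁻¹ * x else 0,
    fun _ => Set.mem_univ _, ?_⟩
  rw [Finset.sum_eq_single i]
  · simp only [if_true]
    rw [zsmul_eq_mul, ← mul_assoc, ZMod.mul_inv_of_unit _ hu, one_mul]
  · intro j _ hj
    simp only
    rw [if_neg hj, smul_zero]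
  · intro h
    exact absurd (Finset.mem_univ _) h

theorem polylog {c : ℝ} (hc : 0 < c) (N2 D : ℕ) (h : ℕ) :
    ∀ᶠ m : ℕ in atTop, Real.log N2 + h * Real.log ((((D + 1) * (Nat.log 2 m + 1) + 1 : ℕ) : ℝ)) <
      c * Real.log m := by
  have h1 : Tendsto (fun x : ℝ => (D + 1 : ℝ) * (2 * x + 1) + 1) atTop atTop := by
    refine tendsto_atTop_add_const_right _ _ (Tendsto.const_mul_atTop (by positivity) ?_)
    exact tendsto_atTop_add_const_right _ _ (tendsto_id.const_mul_atTop (by norm_num))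
  have hδ : 0 < c / (2 * (h + 1) * (2 * (D + 1))) := by positivity
  have h2 : ∀ᶠ x : ℝ in atTop, Real.log x ≤ c / (2 * (h + 1) * (2 * (D + 1))) * x := by
    have h3 := Real.isLittleO_log_id_atTop.bound hδ
    filter_upwards [h3, eventually_ge_atTop (1 : ℝ)] with x hx hx1
    rw [Real.norm_of_nonneg (Real.log_nonneg hx1), id_eq, Real.norm_of_nonneg (by linarith)] at hx
    exact hx
  have h4 : Tendsto (fun m : ℕ => Real.log (m : ℝ)) atTop atTop :=
    Real.tendsto_log_atTop.comp tendsto_natCast_atTop_atTop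
  have h5 := (h1.comp h4).eventually h2
  have h6 := h4.eventually_ge_atTop ((4 / c) * (Real.log N2 + c))
  filter_upwards [h5, h6, h4.eventually_ge_atTop 0, eventually_ge_atTop 1] with m e1 e2 e3 e4
  simp only [Function.comp_apply] at e1
  have h7 : ((Nat.log 2 m : ℕ) : ℝ) ≤ 2 * Real.log m := by
    have h8 : 2 ^ Nat.log 2 m ≤ m := Nat.pow_log_le_self 2 (by omega)
    have h9 : ((2 : ℝ)) ^ Nat.log 2 m ≤ m := by exact_mod_cast h8
    have h10 := Real.log_le_log (by positivity) h9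
    rw [Real.log_pow] at h10
    have h11 := Real.log_two_gt_d9
    have h12 : (0 : ℝ) ≤ (Nat.log 2 m : ℕ) := Nat.cast_nonneg _
    nlinarith
  have h13 : ((((D + 1) * (Nat.log 2 m + 1) + 1 : ℕ) : ℝ)) ≤
      (D + 1 : ℝ) * (2 * Real.log m + 1) + 1 := by
    push_cast
    have : (0 : ℝ) ≤ D + 1 := by positivity
    nlinarith
  have h14 : Real.log ((((D + 1) * (Nat.log 2 m + 1) + 1 : ℕ) : ℝ)) ≤
      c / (2 * (h + 1) * (2 * (D + 1))) * ((D + 1 : ℝ) * (2 * Real.log m + 1) + 1) :=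
    (Real.log_le_log (by positivity) h13).trans e1
  have h15 : c / (2 * (h + 1) * (2 * (D + 1))) * ((D + 1 : ℝ) * (2 * Real.log m + 1) + 1) ≤
      c / (2 * (h + 1)) * (Real.log m + 1) := by
    have h16 : (D + 1 : ℝ) * (2 * Real.log m + 1) + 1 ≤ 2 * (D + 1) * (Real.log m + 1) := by
      have : (0 : ℝ) ≤ D := Nat.cast_nonneg _
      nlinarith
    calc c / (2 * (h + 1) * (2 * (D + 1))) * ((D + 1 : ℝ) * (2 * Real.log m + 1) + 1) ≤
        c / (2 * (h + 1) * (2 * (D + 1))) * (2 * (D + 1) * (Real.log m + 1)) :=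
          mul_le_mul_of_nonneg_left h16 hδ.le
      _ = c / (2 * (h + 1)) * (Real.log m + 1) := by
          field_simp
  have h17 : (h : ℝ) * Real.log ((((D + 1) * (Nat.log 2 m + 1) + 1 : ℕ) : ℝ)) ≤
      c / 2 * (Real.log m + 1) := by
    calc (h : ℝ) * Real.log ((((D + 1) * (Nat.log 2 m + 1) + 1 : ℕ) : ℝ)) ≤
        h * (c / (2 * (h + 1)) * (Real.log m + 1)) :=
          mul_le_mul_of_nonneg_left (h14.trans h15) (Nat.cast_nonneg _)
      _ = (h / (h + 1)) * (c / 2 * (Real.log m + 1)) := by field_simp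
      _ ≤ 1 * (c / 2 * (Real.log m + 1)) := by
          refine mul_le_mul_of_nonneg_right ?_ (by positivity)
          rw [div_le_one (by positivity)]
          linarith
      _ = _ := one_mul _
  have h18 : Real.log N2 + c ≤ c / 4 * Real.log m := by
    have h19 : (c / 4) * ((4 / c) * (Real.log N2 + c)) ≤ c / 4 * Real.log m :=
      mul_le_mul_of_nonneg_left e2 (by positivity)
    have h20 : (c / 4) * ((4 / c) * (Real.log N2 + c)) = Real.log N2 + c := by
      field_simp
    linarith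
  have h21 : 0 ≤ c * Real.log m := by positivity
  linarith

/-- the growth of the least image -/
theorem limit_mu {υ : Fin g → ℤ} {φ : Fin h → ℤ} (hh : 0 < h)
    (h0 : ∃ I : Finset (Fin g), I.Nonempty ∧ ∑ i ∈ I, υ i = 0) (hυ : ∀ i, υ i ≠ 0)
    (hφ : ∀ J : Finset (Fin h), J.Nonempty → ∑ j ∈ J, φ j ≠ 0) :
    Tendsto (fun m : ℕ => Real.log (mu υ φ m) / Real.log m) (atTop ⊓ 𝓟 (good υ))
      (𝓝 (theta υ φ)) := by
  have hg : 0 < g := by
    obtain ⟨I, ⟨i, _⟩, _⟩ := h0
    exact i.pos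
  obtain ⟨S, hS⟩ : ∃ S : ℕ, ∑ i, |φ i| = S :=
    ⟨(∑ i, |φ i|).toNat, (Int.toNat_of_nonneg (Finset.sum_nonneg fun i _ => abs_nonneg _)).symm⟩
  have hlog : Tendsto (fun m : ℕ => Real.log (m : ℝ)) atTop atTop :=
    Real.tendsto_log_atTop.comp tendsto_natCast_atTop_atTop
  have hgood : ∀ᶠ m : ℕ in atTop ⊓ 𝓟 (good υ), m ∈ good υ :=
    mem_inf_of_right (mem_principal_self _)
  rw [tendsto_order]
  constructor
  · intro b hb
    have h1 : ∀ᶠ m : ℕ in atTop, Real.log (2 * S + 1) / (theta υ φ - b) + 1 ≤ Real.log (m : ℝ) :=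
      hlog.eventually_ge_atTop _
    filter_upwards [h1.filter_mono inf_le_left, hgood,
      (eventually_ge_atTop 2).filter_mono inf_le_left,
      (hlog.eventually_ge_atTop 1).filter_mono inf_le_left] with m e1 e2 e3 e4
    obtain ⟨A, hA, hmu⟩ := mu_mem φ e2
    have h2 := lower_log (φ := φ) hg hS e3 hA
    rw [lt_div_iff₀ (by linarith), hmu]
    have h3 : 0 < theta υ φ - b := by linarith
    have h4 : Real.log (2 * S + 1) / (theta υ φ - b) < Real.log (m : ℝ) := by linarith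
    rw [div_lt_iff₀ h3] at h4
    linarith
  · intro b hb
    obtain ⟨I, hI, hI0⟩ := h0
    obtain ⟨A, hA⟩ := exists_small hh hφ
    have hlt : (im φ (A : Set ℤ)).ncard < (im υ (A : Set ℤ)).ncard :=
      lt_of_lt_of_le hA (diffs_le hυ hI hI0 A)
    have hAne : (A : Set ℤ).Nonempty := by
      refine nonempty_of_im hg (υ := υ) ?_
      rw [← Set.ncard_pos (im_finite' υ A)]
      omega
    have h1 : 1 ≤ (im φ (A : Set ℤ)).ncard :=
      (Set.ncard_pos (im_finite' φ A)).mpr (im_nonempty hAne)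
    obtain ⟨r, ⟨A₀, hA₀, rfl⟩, hr⟩ := exists_lt_of_csInf_lt
      (s := {r | ∃ A : Finset ℤ, 2 ≤ (im υ (A : Set ℤ)).ncard ∧
        r = Real.log (im φ (A : Set ℤ)).ncard / Real.log (im υ (A : Set ℤ)).ncard})
      ⟨_, A, by omega, rfl⟩ hb
    have hA₀ne : (A₀ : Set ℤ).Nonempty := by
      refine nonempty_of_im hg (υ := υ) ?_
      rw [← Set.ncard_pos (im_finite' υ A₀)]
      omega
    have hN2 : 1 ≤ (im φ (A₀ : Set ℤ)).ncard :=
      (Set.ncard_pos (im_finite' φ A₀)).mpr (im_nonempty hA₀ne)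
    obtain ⟨D, hD⟩ := exists_sep υ A₀
    have hgen := fun (i : Fin g) k p (h1 : 0 < p) (h2 : IsUnit ((υ i : ℤ) : ZMod p)) =>
      gen_prop (υ := υ) (φ := φ) (k := k) (p := p) h1 h2 hD
    generalize hN1' : (im υ (A₀ : Set ℤ)).ncard = N1 at *
    generalize hN2' : (im φ (A₀ : Set ℤ)).ncard = N2 at *
    have hN1R : (2 : ℝ) ≤ N1 := by exact_mod_cast hA₀
    have hN2R : (1 : ℝ) ≤ N2 := by exact_mod_cast hN2
    have hL1 : 0 < Real.log N1 := Real.log_pos (by linarith)
    have hL2 : 0 ≤ Real.log N2 := Real.log_nonneg hN2R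
    have hc : 0 < b - Real.log N2 / Real.log N1 := by linarith
    filter_upwards [(polylog hc N2 D h).filter_mono inf_le_left, hgood,
      (eventually_ge_atTop 2).filter_mono inf_le_left,
      (hlog.eventually_ge_atTop 1).filter_mono inf_le_left] with m e1 e2 e3 e4
    have hne : NeZero m := ⟨by omega⟩
    obtain ⟨i, hi⟩ := e2
    have hk1 : m ≤ N1 ^ Nat.clog N1 m := Nat.le_pow_clog (by omega) m
    have hk2 : N1 ^ (Nat.clog N1 m - 1) < m := Nat.pow_pred_clog_lt_self (by omega) (by omega)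
    have hk3 : 0 < Nat.clog N1 m := Nat.clog_pos (by omega) (by omega)
    obtain ⟨B, hB1, hB2⟩ := hgen i (Nat.clog N1 m) m (by omega) (isUnit_of_good hi) hk1
    generalize hk : Nat.clog N1 m = k at *
    have hmu : mu υ φ m ≤ (im φ B).ncard := Nat.sInf_le ⟨B, hB1, rfl⟩
    have hBne : B.Nonempty := nonempty_of_im hg (by rw [hB1]; exact Set.univ_nonempty)
    have hBpos : 1 ≤ (im φ B).ncard :=
      (Set.ncard_pos (Set.toFinite _)).mpr (im_nonempty (φ := φ) hBne)
    have h2 : Real.log (mu υ φ m) ≤ Real.log (im φ B).ncard := by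
      rcases Nat.eq_zero_or_pos (mu υ φ m) with h0 | h0
      · rw [h0, Nat.cast_zero, Real.log_zero]
        exact Real.log_natCast_nonneg _
      · exact Real.log_le_log (by exact_mod_cast h0) (by exact_mod_cast hmu)
    have h3 : Real.log (im φ B).ncard ≤ k * Real.log N2 +
        h * Real.log ((((D + 1) * (Nat.log 2 m + 1) + 1 : ℕ) : ℝ)) := by
      have h4 : ((im φ B).ncard : ℝ) ≤
          (N2 : ℝ) ^ k * ((((D + 1) * (Nat.log 2 m + 1) + 1 : ℕ) : ℝ)) ^ h := by
        exact_mod_cast hB2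
      have h5 := Real.log_le_log (by exact_mod_cast hBpos) h4
      rw [Real.log_mul (by positivity) (by positivity), Real.log_pow, Real.log_pow] at h5
      exact h5
    have h6 : ((k : ℝ) - 1) * Real.log N1 ≤ Real.log m := by
      have h7 : ((N1 : ℝ)) ^ (k - 1) ≤ m := by exact_mod_cast hk2.le
      have h8 := Real.log_le_log (by positivity) h7
      rw [Real.log_pow, Nat.cast_sub hk3, Nat.cast_one] at h8
      exact h8
    have h9 : (k : ℝ) * Real.log N2 ≤
        Real.log N2 / Real.log N1 * Real.log m + Real.log N2 := by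
      have h10 : ((k : ℝ) - 1) ≤ Real.log m / Real.log N1 := by
        rw [le_div_iff₀ hL1]
        exact h6
      have h11 := mul_le_mul_of_nonneg_right h10 hL2
      have h12 : Real.log m / Real.log N1 * Real.log N2 =
        Real.log N2 / Real.log N1 * Real.log m := by ring
      linarith
    rw [div_lt_iff₀ (by linarith)]
    linarith

end Pool.Agent.H73.HR
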