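import Pool.Agent.H73.HR.Digits

/-!
# A finite set of integers with few values of `φ` and many differences
-/

namespace Pool.Agent.H73.HR

open Finset

variable {h : ℕ}

theorem exists_pow_lt (C Q : ℕ) (hQ : 1 ≤ Q) : ∃ n : ℕ, C * (Q - 1) ^ n < Q ^ n := by
  have hpos : (0 : ℝ) < Q := by exact_mod_cast hQ
  have hlt : ((Q - 1 : ℕ) : ℝ) / Q < 1 := by
    rw [div_lt_one hpos]
    exact_mod_cast (by omega : Q - 1 < Q)
  have hC1 : (0 : ℝ) < 1 / (C + 1) := by positivity
  obtain ⟨n, hn⟩ := exists_pow_lt_of_lt_one hC1 hlt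
  refine ⟨n, ?_⟩
  rw [div_pow, div_lt_div_iff₀ (by positivity) (by positivity)] at hn
  have : ((C * (Q - 1) ^ n : ℕ) : ℝ) < ((Q ^ n : ℕ) : ℝ) := by
    push_cast
    have h0 : (0 : ℝ) ≤ ((Q - 1 : ℕ) : ℝ) ^ n := by positivity
    nlinarith
  exact_mod_cast this

theorem exists_small (hh : 0 < h) {φ : Fin h → ℤ}
    (hφ : ∀ J : Finset (Fin h), J.Nonempty → ∑ j ∈ J, φ j ≠ 0) :
    ∃ A : Finset ℤ, (im φ (A : Set ℤ)).ncard < (diffs (A : Set ℤ)).ncard := by
  classical
  obtain ⟨S, hS⟩ : ∃ S : ℕ, ∑ i, |φ i| = S :=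
    ⟨(∑ i, |φ i|).toNat, (Int.toNat_of_nonneg (Finset.sum_nonneg fun i _ => abs_nonneg _)).symm⟩
  obtain ⟨q, hq1, hq2⟩ := Nat.exists_infinite_primes (7 * S + 6)
  have hprime : Fact q.Prime := ⟨hq2⟩
  have hne : NeZero q := ⟨hq2.ne_zero⟩
  have hinj : Inj φ (ZMod q) := by
    intro J hJ x y hxy
    simp only [zsmul_eq_mul] at hxy
    refine mul_left_cancel₀ ?_ hxy
    rw [Ne, ZMod.intCast_zmod_eq_zero_iff_dvd]
    intro hdvd
    have h1 := Int.le_of_dvd (abs_pos.mpr (hφ J hJ)) ((dvd_abs _ _).mpr hdvd)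
    have h2 : |∑ j ∈ J, φ j| ≤ S := by
      rw [← hS]
      exact (Finset.abs_sum_le_sum_abs _ _).trans
        (Finset.sum_le_sum_of_subset_of_nonneg (Finset.subset_univ _) fun i _ _ => abs_nonneg _)
    omega
  set B : Set (ZMod q) := {x | ∃ t : ℤ, |t| ≤ 3 * S + 2 ∧ x = t} with hBdef
  have hB : B ≠ Set.univ := by
    intro hu
    have h1 : (Finset.univ : Finset (ZMod q)) ⊆
        (Finset.Icc (-(3 * S + 2 : ℤ)) (3 * S + 2)).image fun t : ℤ => (t : ZMod q) := by
      intro x _
      have hx : x ∈ B := by rw [hu]; trivial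
      obtain ⟨t, ht, rfl⟩ := hx
      exact Finset.mem_image_of_mem _ (Finset.mem_Icc.mpr (abs_le.mp ht))
    have h2 := (Finset.card_le_card h1).trans Finset.card_image_le
    rw [Finset.card_univ, ZMod.card, Int.card_Icc] at h2
    omega
  obtain ⟨ι, _, _, A, hA, hs⟩ := PP_all φ h (ZMod q) hinj B hB
  cases nonempty_fintype ι
  set Q : ℕ := Fintype.card (ι → ZMod q) with hQ
  have hQ1 : 1 ≤ Q := Fintype.card_pos
  obtain ⟨n, hn⟩ := exists_pow_lt (4 * S + 5) Q hQ1
  set e := Fintype.equivFin (Fin n × ι) with he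
  refine transfer (φ := φ) (q := q) (N := Fintype.card (Fin n × ι)) hq2.two_le
    (A := {z | ∀ k, (fun i => z (e (k, i))) ∈ A}) ?_ (S := S) hS.le
    (Finset.univ.filter fun z => ∀ k, (fun i => z (e (k, i))) ≠ 0) ?_ ?_
  · intro g
    choose a ha b hb hab using fun k => hA fun i => g (e (k, i))
    refine ⟨fun p => a (e.symm p).1 (e.symm p).2, ?_, fun p => b (e.symm p).1 (e.symm p).2, ?_, ?_⟩
    · intro k
      simpa using ha k
    · intro k
      simpa using hb k
    · funext p
      have h1 := congrFun (hab (e.symm p).1) (e.symm p).2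
      simp only [Pi.sub_apply, Prod.mk.eta, Equiv.apply_symm_apply] at h1
      exact h1
  · intro a ha t ht
    rw [Finset.mem_filter]
    refine ⟨Finset.mem_univ _, fun k hk => ?_⟩
    obtain ⟨i, hi⟩ := hs Finset.univ ⟨⟨0, hh⟩, Finset.mem_univ _⟩ (by simp)
      (fun j i => a j (e (k, i))) fun j _ => ha j k
    apply hi
    refine ⟨-t (e (k, i)), by rw [abs_neg]; exact ht _, ?_⟩
    have h1 := congrFun hk i
    simp only [Pi.zero_apply, Finset.sum_apply, Pi.smul_apply] at h1
    simp only [Finset.sum_apply, Pi.smul_apply]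
    push_cast
    exact eq_neg_of_add_eq_zero_left h1
  · have hW : (Finset.univ.filter fun z : Fin (Fintype.card (Fin n × ι)) → ZMod q =>
        ∀ k, (fun i => z (e (k, i))) ≠ 0).card ≤ (Q - 1) ^ n := by
      have h1 : (Fintype.piFinset fun _ : Fin n =>
          (Finset.univ.filter fun v : ι → ZMod q => v ≠ 0)).card = (Q - 1) ^ n := by
        rw [Fintype.card_piFinset]
        simp only [Finset.prod_const, Finset.card_univ, Fintype.card_fin]
        congr 1
        rw [Finset.filter_ne', Finset.card_erase_of_mem (Finset.mem_univ _), Finset.card_univ]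
      rw [← h1]
      refine Finset.card_le_card_of_injOn (fun z k i => z (e (k, i))) ?_ ?_
      · intro z hz
        have hz' := (Finset.mem_filter.mp (Finset.mem_coe.mp hz)).2
        rw [Finset.mem_coe, Fintype.mem_piFinset]
        intro k
        rw [Finset.mem_filter]
        exact ⟨Finset.mem_univ _, hz' k⟩
      · intro z _ z' _ hzz
        funext p
        have h2 := congrFun (congrFun hzz (e.symm p).1) (e.symm p).2
        simpa using h2
    have hpow : q ^ Fintype.card (Fin n × ι) = Q ^ n := by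
      rw [hQ, Fintype.card_prod, Fintype.card_fin, Fintype.card_fun, ZMod.card, ← pow_mul,
        mul_comm]
    rw [hpow]
    exact lt_of_le_of_lt (Nat.mul_le_mul_left _ hW) hn

end Pool.Agent.H73.HR
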