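import Pool.Agent.H73.HR.Moduli

/-!
# The case of a unary form `Φ`
-/

namespace Pool.Agent.H73.HR

open Finset Filter Topology

variable {g : ℕ}

/-- a basis-like set in a cyclic group -/
theorem exists_basis {υ : Fin g → ℤ} (φ : Fin 1 → ℤ) {m b : ℕ} (hm : 0 < m)
    (hυ : ∀ i, IsCoprime (υ i) (m : ℤ)) (hb : m ≤ b ^ g) :
    ∃ A : Set (ZMod m), im υ A = Set.univ ∧ (im φ A).ncard ≤ g * b := by
  classical
  have hne : NeZero m := ⟨hm.ne'⟩
  set T : Finset (ZMod m) := (Finset.univ ×ˢ Finset.range b : Finset (Fin g × ℕ)).image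
    fun q => (υ q.1 : ZMod m)⁻¹ * ((q.2 * b ^ (q.1 : ℕ) : ℕ) : ZMod m) with hT
  refine ⟨(T : Set (ZMod m)), ?_, ?_⟩
  · refine Set.eq_univ_of_forall fun x => ?_
    have hx : x.val < b ^ g := (ZMod.val_lt x).trans_le hb
    set f := (finFunctionFinEquiv (m := b) (n := g)).symm ⟨x.val, hx⟩ with hf
    have hf1 : (x.val : ℕ) = ∑ i, (f i : ℕ) * b ^ (i : ℕ) := by
      have h1 := finFunctionFinEquiv_apply f
      rw [hf, Equiv.apply_symm_apply] at h1
      exact h1
    refine ⟨fun i => (υ i : ZMod m)⁻¹ * (((f i : ℕ) * b ^ (i : ℕ) : ℕ) : ZMod m), ?_, ?_⟩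
    · intro i
      rw [Finset.mem_coe, hT, Finset.mem_image]
      exact ⟨(i, (f i : ℕ)), Finset.mem_product.mpr ⟨Finset.mem_univ _,
        Finset.mem_range.mpr (f i).2⟩, rfl⟩
    · have h2 : ∀ i, υ i • ((υ i : ZMod m)⁻¹ * (((f i : ℕ) * b ^ (i : ℕ) : ℕ) : ZMod m)) =
          (((f i : ℕ) * b ^ (i : ℕ) : ℕ) : ZMod m) := by
        intro i
        rw [zsmul_eq_mul, ← mul_assoc, ZMod.mul_inv_of_unit _ (isUnit_of_good (hυ i)), one_mul]
      simp only [h2]
      rw [← Nat.cast_sum, ← hf1, ZMod.natCast_zmod_val]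
  · have h1 : im φ (T : Set (ZMod m)) ⊆ (fun x => φ 0 • x) '' (T : Set (ZMod m)) := by
      rintro x ⟨a, ha, rfl⟩
      refine ⟨a 0, ha 0, ?_⟩
      simp
    refine (Set.ncard_le_ncard h1 (T.finite_toSet.image _)).trans
      ((Set.ncard_image_le T.finite_toSet).trans ?_)
    rw [Set.ncard_coe_finset]
    refine Finset.card_image_le.trans ?_
    rw [Finset.card_product, Finset.card_range]
    simp

theorem two_le_g {υ : Fin g → ℤ} (hυ : ∀ i, υ i ≠ 0)
    (h0 : ∃ I : Finset (Fin g), I.Nonempty ∧ ∑ i ∈ I, υ i = 0) : 2 ≤ g := by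
  obtain ⟨I, ⟨i, hi⟩, hI⟩ := h0
  by_contra hlt
  have hg : g = 1 := by
    have := i.pos
    omega
  subst hg
  have h1 : I = {i} := by
    ext j
    rw [Finset.mem_singleton]
    constructor
    · intro _
      exact Subsingleton.elim _ _
    · rintro rfl
      exact hi
  rw [h1, Finset.sum_singleton] at hI
  exact hυ i hI

/-- the moduli `P t + 1` -/
theorem coprime_of_prod (υ : Fin g → ℤ) (t : ℕ) (i : Fin g) :
    IsCoprime (υ i) (((∏ j, υ j).natAbs * t + 1 : ℕ) : ℤ) := by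
  have h1 : υ i ∣ ((∏ j, υ j).natAbs : ℤ) := by
    rw [Int.dvd_natAbs]
    exact Finset.dvd_prod_of_mem υ (Finset.mem_univ i)
  obtain ⟨c, hc⟩ := h1
  refine ⟨-(c * t), 1, ?_⟩
  push_cast at hc ⊢
  rw [hc]
  ring

/-- the exponent in the case of a unary form `Φ` -/
theorem theta_unary {υ : Fin g → ℤ} {φ : Fin 1 → ℤ} (hυ : ∀ i, υ i ≠ 0) (hφ : φ 0 ≠ 0)
    (h0 : ∃ I : Finset (Fin g), I.Nonempty ∧ ∑ i ∈ I, υ i = 0) :
    theta υ φ = 1 / (g : ℝ) := by
  have hg := two_le_g hυ h0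
  have hφ' : ∀ J : Finset (Fin 1), J.Nonempty → ∑ j ∈ J, φ j ≠ 0 := by
    rintro J ⟨j, hj⟩
    have h1 : J = {0} := by
      ext i
      rw [Finset.mem_singleton]
      have hi : i = 0 := Subsingleton.elim _ _
      have hj' : j = 0 := Subsingleton.elim _ _
      constructor
      · exact fun _ => hi
      · intro _
        rw [hi, ← hj']
        exact hj
    rw [h1, Finset.sum_singleton]
    exact hφ
  have hφ0 : ∀ i, φ i ≠ 0 := by
    intro i
    have : i = 0 := Subsingleton.elim _ _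
    rw [this]
    exact hφ
  obtain ⟨hb1, hb2⟩ := theta_bounds one_pos hυ hφ0 h0 hφ'
  refine le_antisymm ?_ hb1
  by_contra hlt
  have hlt' : 1 / (g : ℝ) < theta υ φ := not_le.mp hlt
  obtain ⟨S, hS⟩ : ∃ S : ℕ, ∑ i, |φ i| = S :=
    ⟨(∑ i, |φ i|).toNat, (Int.toNat_of_nonneg (Finset.sum_nonneg fun i _ => abs_nonneg _)).symm⟩
  have hgR : (0 : ℝ) < g := by positivity
  set P : ℕ := (∏ j, υ j).natAbs with hP
  have hPpos : 1 ≤ P := Int.natAbs_pos.mpr (Finset.prod_ne_zero_iff.mpr fun i _ => hυ i)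
  have hgθ : 0 < g * theta υ φ - 1 := by
    rw [div_lt_iff₀ hgR] at hlt'
    linarith
  -- the inequality for a large `b`
  have key : ∀ b : ℕ, 2 ≤ b → P < b →
      (g * theta υ φ - 1) * Real.log b ≤
        Real.log (2 * S + 1) + Real.log g + theta υ φ * Real.log 2 := by
    intro b hb hPb
    set t : ℕ := (b ^ g - 1) / P with ht
    have hbg : b ≤ b ^ g := Nat.le_self_pow (by omega) b
    have hm1 : P * t + 1 ≤ b ^ g := by
      have := Nat.div_mul_le_self (b ^ g - 1) P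
      rw [← ht, mul_comm] at this
      omega
    have hm2 : b ^ g < P * t + 1 + P := by
      have h1 := Nat.lt_div_mul_add (a := b ^ g - 1) (b := P) (by omega)
      rw [← ht, mul_comm] at h1
      omega
    have hbg2 : 2 * b ≤ b ^ g := by
      calc 2 * b ≤ b * b := Nat.mul_le_mul_right _ hb
        _ = b ^ 2 := (sq b).symm
        _ ≤ b ^ g := Nat.pow_le_pow_right (by omega) hg
    have hm3 : b ^ g ≤ 2 * (P * t + 1) := by omega
    obtain ⟨A, hA1, hA2⟩ := exists_basis φ (Nat.succ_pos (P * t))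
      (coprime_of_prod υ t) hm1
    have hm4 : 2 ≤ P * t + 1 := by omega
    have h2 := lower_log (φ := φ) (by omega) hS hm4 hA1
    have hne : NeZero (P * t + 1) := ⟨by omega⟩
    have hAne : A.Nonempty := nonempty_of_im (υ := υ) (by omega)
      (by rw [hA1]; exact Set.univ_nonempty)
    have h3 : 1 ≤ (im φ A).ncard :=
      (Set.ncard_pos (Set.toFinite _)).mpr (im_nonempty (φ := φ) hAne)
    have h4 : Real.log (im φ A).ncard ≤ Real.log g + Real.log b := by
      rw [← Real.log_mul (by positivity) (by positivity)]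
      refine Real.log_le_log (by exact_mod_cast h3) (by exact_mod_cast hA2)
    have h5 : g * Real.log b ≤ Real.log 2 + Real.log ((P * t + 1 : ℕ) : ℝ) := by
      rw [← Real.log_mul (by norm_num) (by positivity), ← Real.log_pow]
      refine Real.log_le_log (by positivity) ?_
      exact_mod_cast hm3
    have h6 := mul_le_mul_of_nonneg_left h5 (theta_nonneg υ φ)
    linarith
  have hlog : Tendsto (fun m : ℕ => Real.log (m : ℝ)) atTop atTop :=
    Real.tendsto_log_atTop.comp tendsto_natCast_atTop_atTop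
  obtain ⟨b, hb1, hb2, hb3⟩ := ((hlog.eventually_gt_atTop
    ((Real.log (2 * S + 1) + Real.log g + theta υ φ * Real.log 2) / (g * theta υ φ - 1))).and
      ((eventually_ge_atTop 2).and (eventually_gt_atTop P))).exists
  have h7 := key b hb2 hb3
  rw [div_lt_iff₀ hgθ] at hb1
  linarith

/-- the order of magnitude of the least modulus in the case of a unary form `Φ` -/
theorem order_unary {υ : Fin g → ℤ} {φ : Fin 1 → ℤ} (hυ : ∀ i, υ i ≠ 0) (hφ : φ 0 ≠ 0)
    (h0 : ∃ I : Finset (Fin g), I.Nonempty ∧ ∑ i ∈ I, υ i = 0) :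
    ∃ c C : ℝ, 0 < c ∧ 0 < C ∧ ∀ ε : ℝ, 0 < ε → ε < 1 → HasProp υ φ ε (mm υ φ ε) ∧
      c * (1 / ε) ^ ((g : ℝ) / (g - 1)) ≤ mm υ φ ε ∧
      mm υ φ ε ≤ C * (1 / ε) ^ ((g : ℝ) / (g - 1)) := by
  have hg := two_le_g hυ h0
  have hθ := theta_unary hυ hφ h0
  obtain ⟨S, hS⟩ : ∃ S : ℕ, ∑ i, |φ i| = S :=
    ⟨(∑ i, |φ i|).toNat, (Int.toNat_of_nonneg (Finset.sum_nonneg fun i _ => abs_nonneg _)).symm⟩
  have hgR : (2 : ℝ) ≤ g := by exact_mod_cast hg
  set P : ℕ := (∏ j, υ j).natAbs with hP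
  have hPpos : 1 ≤ P := Int.natAbs_pos.mpr (Finset.prod_ne_zero_iff.mpr fun i _ => hυ i)
  set K : ℝ := 2 * g * (1 + P) with hK
  have hKpos : 0 < K := by positivity
  refine ⟨(1 / (2 * S + 1 : ℝ)) ^ ((g : ℝ) / (g - 1)), (3 * K ^ (1 / ((g : ℝ) - 1))) ^ (g : ℝ),
    by positivity, by positivity, ?_⟩
  intro ε hε hε1
  have hinv : 1 < 1 / ε := by
    rw [lt_div_iff₀ hε]
    linarith
  -- the upper bound
  set y : ℝ := (K / ε) ^ (1 / ((g : ℝ) - 1)) with hy
  have hKε : 1 ≤ K / ε := by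
    rw [le_div_iff₀ hε]
    have h1 : (1 : ℝ) ≤ P := by exact_mod_cast hPpos
    rw [hK]
    nlinarith
  have hy1 : 1 ≤ y := Real.one_le_rpow hKε (by
    apply div_nonneg zero_le_one
    linarith)
  set b : ℕ := ⌈y⌉₊ + 1 with hb
  have hb1 : y < b := by
    rw [hb]
    push_cast
    have := Nat.le_ceil y
    linarith
  have hb2 : (b : ℝ) ≤ 3 * y := by
    rw [hb]
    push_cast
    have := Nat.ceil_lt_add_one (le_trans zero_le_one hy1)
    linarith
  have hb3 : K / ε < (b : ℝ) ^ (g - 1) := by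
    have h1 : K / ε = y ^ ((g - 1 : ℕ) : ℝ) := by
      rw [hy, ← Real.rpow_mul (by positivity), Nat.cast_sub (by omega), Nat.cast_one,
        one_div, inv_mul_cancel₀ (by linarith), Real.rpow_one]
    rw [h1, Real.rpow_natCast]
    exact pow_lt_pow_left₀ hb1 (by linarith) (by omega)
  have hbR : (1 : ℝ) ≤ b := hy1.trans hb1.le
  have hb4 : (b : ℝ) ^ g = (b : ℝ) ^ (g - 1) * b := by
    rw [← pow_succ]
    congr 1
    omega
  have hb5 : K / ε * b < (b : ℝ) ^ g := by
    rw [hb4]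
    exact mul_lt_mul_of_pos_right hb3 (by linarith)
  have hb6 : 2 * P < b ^ g := by
    have h1 : (2 : ℝ) * P < (b : ℝ) ^ g := by
      refine lt_of_le_of_lt ?_ hb5
      have h2 : (2 : ℝ) * P ≤ K := by
        rw [hK]
        have : (0 : ℝ) ≤ P := Nat.cast_nonneg _
        nlinarith
      have h3 : K ≤ K / ε := by
        rw [le_div_iff₀ hε]
        nlinarith
      nlinarith
    exact_mod_cast h1
  set t : ℕ := (b ^ g - 1) / P with ht
  have hm1 : P * t + 1 ≤ b ^ g := by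
    have := Nat.div_mul_le_self (b ^ g - 1) P
    rw [← ht, mul_comm] at this
    omega
  have hm2 : b ^ g < P * t + 1 + P := by
    have h1 := Nat.lt_div_mul_add (a := b ^ g - 1) (b := P) (by omega)
    rw [← ht, mul_comm] at h1
    omega
  have hm3 : b ^ g ≤ 2 * (P * t + 1) := by omega
  obtain ⟨A, hA1, hA2⟩ := exists_basis φ (Nat.succ_pos (P * t))
    (coprime_of_prod υ t) hm1
  have hprop : HasProp υ φ ε (P * t + 1) := by
    refine ⟨Nat.succ_pos _, A, hA1, ?_⟩
    have h1 : ((im φ A).ncard : ℝ) ≤ g * b := by exact_mod_cast hA2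
    have h2 : (b : ℝ) ^ g ≤ 2 * ((P * t + 1 : ℕ) : ℝ) := by exact_mod_cast hm3
    have h3 : K * b < ε * (b : ℝ) ^ g := by
      have h4 := mul_lt_mul_of_pos_left hb5 hε
      rw [← mul_assoc, mul_div_cancel₀ _ hε.ne'] at h4
      exact h4
    have h5 : 2 * (g : ℝ) * b ≤ K * b := by
      refine mul_le_mul_of_nonneg_right ?_ (by linarith)
      rw [hK]
      have : (0 : ℝ) ≤ P := Nat.cast_nonneg _
      nlinarith
    have h6 := mul_le_mul_of_nonneg_left h2 hε.le
    linarith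
  have hmem : HasProp υ φ ε (mm υ φ ε) := Nat.sInf_mem (s := {m | HasProp υ φ ε m}) ⟨_, hprop⟩
  have hgm : (0 : ℝ) < g - 1 := by linarith
  refine ⟨hmem, ?_, ?_⟩
  · -- the lower bound
    have hm2 := two_le (by omega) hε1.le hmem
    obtain ⟨hm0, A', hA', hc⟩ := hmem
    have hmR : (0 : ℝ) < mm υ φ ε := by exact_mod_cast hm0
    have h1 := lower_core (φ := φ) (by omega) hS hm2 hA'
    have h2 : ((mm υ φ ε : ℕ) : ℝ) ^ theta υ φ ≤ (2 * S + 1) * (ε * mm υ φ ε) :=
      h1.trans (mul_le_mul_of_nonneg_left hc.le (by positivity))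
    have h3 : 1 / (2 * S + 1) * (1 / ε) ≤ ((mm υ φ ε : ℕ) : ℝ) ^ (1 - theta υ φ) := by
      rw [Real.rpow_sub hmR, Real.rpow_one, le_div_iff₀ (by positivity)]
      have h4 : 1 / (2 * S + 1) * (1 / ε) * ((mm υ φ ε : ℕ) : ℝ) ^ theta υ φ ≤
          1 / (2 * S + 1) * (1 / ε) * ((2 * S + 1) * (ε * mm υ φ ε)) :=
        mul_le_mul_of_nonneg_left h2 (by positivity)
      have h5 : 1 / (2 * S + 1) * (1 / ε) * ((2 * S + 1) * (ε * mm υ φ ε)) =
          ((mm υ φ ε : ℕ) : ℝ) := by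
        field_simp
      linarith
    rw [← Real.mul_rpow (by positivity) (by positivity)]
    have h6 := Real.rpow_le_rpow (by positivity) h3 (show 0 ≤ (g : ℝ) / (g - 1) by positivity)
    rw [← Real.rpow_mul hmR.le] at h6
    have h7 : (1 - theta υ φ) * ((g : ℝ) / (g - 1)) = 1 := by
      rw [hθ]
      field_simp
    rw [h7, Real.rpow_one] at h6
    exact h6
  · have h1 : (mm υ φ ε : ℝ) ≤ (b : ℝ) ^ g := by
      exact_mod_cast (Nat.sInf_le (s := {m | HasProp υ φ ε m}) hprop).trans hm1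
    refine h1.trans ?_
    rw [← Real.rpow_natCast]
    have h2 : (b : ℝ) ^ (g : ℝ) ≤ (3 * y) ^ (g : ℝ) :=
      Real.rpow_le_rpow (by linarith) hb2 (by positivity)
    refine h2.trans (le_of_eq ?_)
    have h3 : y = K ^ (1 / ((g : ℝ) - 1)) * (1 / ε) ^ (1 / ((g : ℝ) - 1)) := by
      rw [hy, ← Real.mul_rpow hKpos.le (by positivity), mul_one_div]
    rw [h3, ← mul_assoc, Real.mul_rpow (by positivity) (by positivity),
      ← Real.rpow_mul (by positivity) (1 / ((g : ℝ) - 1)), one_div_mul_eq_div]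

end Pool.Agent.H73.HR
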