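import Pool.Agent.H73.HR.Lower

/-!
# The construction: random homomorphisms and translates
-/

namespace Pool.Agent.H73.HR

open Finset

variable {g h : ℕ}

/-- the homomorphism to `ZMod m` with the coefficients `c` -/
def hom {k m : ℕ} (c : Fin k → ZMod m) (x : Fin k → ℤ) : ZMod m := ∑ j, c j * (x j : ZMod m)

theorem hom_sum {k m : ℕ} (c : Fin k → ZMod m) (φ : Fin h → ℤ) (x : Fin h → Fin k → ℤ) :
    hom c (fun j => ∑ i, φ i • x i j) = ∑ i, φ i • hom c (x i) := by
  simp only [hom]
  simp only [zsmul_eq_mul, smul_eq_mul, Finset.mul_sum, Int.cast_sum, Int.cast_mul]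
  rw [Finset.sum_comm]
  refine Finset.sum_congr rfl fun i _ => Finset.sum_congr rfl fun j _ => ?_
  ring

theorem count_zero {k m D : ℕ} [NeZero m] {v : Fin k → ℤ} {i₀ : Fin k} (hv : v i₀ ≠ 0)
    (hD : (v i₀).natAbs ≤ D) :
    m * (Finset.univ.filter fun c : Fin k → ZMod m => ∑ j, c j * (v j : ZMod m) = 0).card ≤
      D * m ^ k := by
  classical
  have hm : 0 < m := Nat.pos_of_ne_zero (NeZero.ne m)
  have hv' : 0 < (v i₀).natAbs := Int.natAbs_pos.mpr hv
  have h1 : m * (Finset.univ.filter fun c : Fin k → ZMod m =>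
      ∑ j, c j * (v j : ZMod m) = 0).card =
      ((Finset.univ : Finset (ZMod m)) ×ˢ
        (Finset.univ.filter fun c : Fin k → ZMod m => ∑ j, c j * (v j : ZMod m) = 0)).card := by
    rw [Finset.card_product, Finset.card_univ, ZMod.card]
  have h2 : (Finset.range D ×ˢ (Finset.univ : Finset (Fin k → ZMod m))).card = D * m ^ k := by
    rw [Finset.card_product, Finset.card_range, Finset.card_univ, Fintype.card_fun, ZMod.card,
      Fintype.card_fin]
  rw [h1, ← h2]
  have hval : ∀ (t : ZMod m) (c : Fin k → ZMod m), ∑ j, c j * (v j : ZMod m) = 0 →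
      ∑ j, (c + Pi.single i₀ t : Fin k → ZMod m) j * (v j : ZMod m) = t * (v i₀ : ZMod m) := by
    intro t c hc
    simp only [Pi.add_apply, add_mul, Finset.sum_add_distrib, hc, zero_add]
    rw [Finset.sum_eq_single i₀, Pi.single_eq_same]
    · intro j _ hj
      rw [Pi.single_eq_of_ne hj, zero_mul]
    · intro h
      exact absurd (Finset.mem_univ _) h
  refine Finset.card_le_card_of_injOn
    (fun q : ZMod m × (Fin k → ZMod m) =>
      (q.1.val * (v i₀).natAbs / m, q.2 + (Pi.single i₀ q.1 : Fin k → ZMod m))) ?_ ?_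
  · rintro ⟨t, c⟩ _
    rw [Finset.mem_coe, Finset.mem_product, Finset.mem_range]
    refine ⟨?_, Finset.mem_univ _⟩
    simp only
    rw [Nat.div_lt_iff_lt_mul hm]
    have := ZMod.val_lt t
    calc t.val * (v i₀).natAbs < m * (v i₀).natAbs := Nat.mul_lt_mul_of_pos_right this hv'
      _ = (v i₀).natAbs * m := mul_comm _ _
      _ ≤ D * m := Nat.mul_le_mul_right _ hD
  · rintro ⟨t, c⟩ hq ⟨t', c'⟩ hq' heq
    have hc := (Finset.mem_filter.mp (Finset.mem_product.mp (Finset.mem_coe.mp hq)).2).2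
    have hc' := (Finset.mem_filter.mp (Finset.mem_product.mp (Finset.mem_coe.mp hq')).2).2
    simp only [Prod.mk.injEq] at heq hc hc'
    have h3 : t * (v i₀ : ZMod m) = t' * (v i₀ : ZMod m) := by
      rw [← hval t c hc, ← hval t' c' hc', heq.2]
    have h4 : t * ((v i₀).natAbs : ZMod m) = t' * ((v i₀).natAbs : ZMod m) := by
      rcases Int.natAbs_eq (v i₀) with h | h
      · have h5 : ((v i₀ : ℤ) : ZMod m) = ((v i₀).natAbs : ZMod m) := by
          conv_lhs => rw [h, Int.cast_natCast]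
        rw [← h5]
        exact h3
      · have h5 : ((v i₀ : ℤ) : ZMod m) = -((v i₀).natAbs : ZMod m) := by
          conv_lhs => rw [h, Int.cast_neg, Int.cast_natCast]
        rw [h5, mul_neg, mul_neg, neg_inj] at h3
        exact h3
    have h6 : t.val * (v i₀).natAbs ≡ t'.val * (v i₀).natAbs [MOD m] := by
      rw [← ZMod.natCast_eq_natCast_iff]
      push_cast
      rw [ZMod.natCast_zmod_val, ZMod.natCast_zmod_val]
      exact h4
    have h7 : t.val * (v i₀).natAbs = t'.val * (v i₀).natAbs := by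
      rw [← Nat.mod_add_div (t.val * (v i₀).natAbs) m,
        ← Nat.mod_add_div (t'.val * (v i₀).natAbs) m, heq.1]
      have : t.val * (v i₀).natAbs % m = t'.val * (v i₀).natAbs % m := h6
      rw [this]
    have h8 : t = t' := ZMod.val_injective m (Nat.eq_of_mul_eq_mul_right hv' h7)
    subst h8
    have h9 : c = c' := add_right_cancel heq.2
    rw [h9]

/-- the second moment method -/
theorem exists_hom {k p D : ℕ} [NeZero p] (X : Finset (Fin k → ℤ))
    (hsep : ∀ x ∈ X, ∀ y ∈ X, ∀ j, (x j - y j).natAbs ≤ D)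
    (hX : p ≤ X.card) : ∃ c : Fin k → ZMod p, p ≤ (D + 1) * (X.image (hom c)).card := by
  classical
  have hp : 0 < p := Nat.pos_of_ne_zero (NeZero.ne p)
  set cnt : (Fin k → ZMod p) → ℕ := fun c =>
    ((X ×ˢ X).filter fun q => hom c q.1 = hom c q.2).card with hcnt
  have hsum : ∑ c : Fin k → ZMod p, p * cnt c ≤
      ∑ _c : Fin k → ZMod p, (D + 1) * X.card ^ 2 := by
    have h1 : ∑ c : Fin k → ZMod p, p * cnt c = ∑ q ∈ X ×ˢ X,
        p * (Finset.univ.filter fun c : Fin k → ZMod p => hom c q.1 = hom c q.2).card := by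
      simp only [hcnt, Finset.card_filter, Finset.mul_sum]
      rw [Finset.sum_comm]
    have h2 : ∀ q ∈ X ×ˢ X,
        p * (Finset.univ.filter fun c : Fin k → ZMod p => hom c q.1 = hom c q.2).card ≤
          (if q.1 = q.2 then p * p ^ k else 0) + D * p ^ k := by
      intro q hq
      rw [Finset.mem_product] at hq
      by_cases h : q.1 = q.2
      · rw [if_pos h]
        refine le_trans (Nat.mul_le_mul_left p (Finset.card_filter_le _ _)) ?_
        rw [Finset.card_univ, Fintype.card_fun, ZMod.card, Fintype.card_fin]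
        exact Nat.le_add_right _ _
      · rw [if_neg h, zero_add]
        obtain ⟨i₀, hi₀⟩ := Function.ne_iff.mp h
        refine le_trans (le_of_eq ?_) (count_zero (v := fun j => q.1 j - q.2 j) (i₀ := i₀)
          (sub_ne_zero.mpr hi₀) (hsep _ hq.1 _ hq.2 i₀))
        congr 2
        ext c
        simp only [Finset.mem_filter, Finset.mem_univ, true_and]
        rw [← sub_eq_zero, hom, hom, ← Finset.sum_sub_distrib]
        refine Eq.congr (Finset.sum_congr rfl fun j _ => ?_) rfl
        push_cast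
        ring
    rw [h1]
    refine (Finset.sum_le_sum h2).trans ?_
    rw [Finset.sum_add_distrib, Finset.sum_const, Finset.sum_const, Finset.card_product,
      Finset.card_univ, Fintype.card_fun, ZMod.card, Fintype.card_fin, Finset.sum_product]
    have h3 : ∑ x ∈ X, ∑ y ∈ X, (if x = y then p * p ^ k else 0) = X.card * (p * p ^ k) := by
      have h4 : ∀ x ∈ X, ∑ y ∈ X, (if x = y then p * p ^ k else 0) = p * p ^ k := by
        intro x hx
        rw [Finset.sum_ite_eq X x, if_pos hx]
      rw [Finset.sum_congr rfl h4, Finset.sum_const, smul_eq_mul]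
    rw [h3]
    simp only [smul_eq_mul]
    have h5 : X.card * (p * p ^ k) ≤ X.card * (X.card * p ^ k) :=
      Nat.mul_le_mul_left _ (Nat.mul_le_mul_right _ hX)
    calc X.card * (p * p ^ k) + X.card * X.card * (D * p ^ k)
        ≤ X.card * (X.card * p ^ k) + X.card * X.card * (D * p ^ k) := Nat.add_le_add_right h5 _
      _ = p ^ k * ((D + 1) * X.card ^ 2) := by ring
  obtain ⟨c, _, hc⟩ := Finset.exists_le_of_sum_le Finset.univ_nonempty hsum
  refine ⟨c, ?_⟩
  set Y := X.image (hom c) with hY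
  have h6 : X.card = ∑ y ∈ Y, (X.filter fun x => hom c x = y).card :=
    Finset.card_eq_sum_card_fiberwise fun x hx =>
      Finset.mem_coe.mpr (Finset.mem_image_of_mem _ (Finset.mem_coe.mp hx))
  have h7 : cnt c = ∑ y ∈ Y, (X.filter fun x => hom c x = y).card ^ 2 := by
    have h8 : cnt c = ∑ y ∈ Y, (((X ×ˢ X).filter fun q => hom c q.1 = hom c q.2).filter
        fun q => hom c q.1 = y).card :=
      Finset.card_eq_sum_card_fiberwise fun q hq => by
        rw [Finset.mem_coe, Finset.mem_filter, Finset.mem_product] at hq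
        exact Finset.mem_coe.mpr (Finset.mem_image_of_mem _ hq.1.1)
    rw [h8]
    refine Finset.sum_congr rfl fun y _ => ?_
    rw [sq, ← Finset.card_product]
    congr 1
    ext q
    simp only [Finset.mem_filter, Finset.mem_product]
    constructor
    · rintro ⟨⟨⟨h1, h2⟩, h3⟩, h4⟩
      exact ⟨⟨h1, h4⟩, h2, h3 ▸ h4⟩
    · rintro ⟨⟨h1, h4⟩, h2, h5⟩
      exact ⟨⟨⟨h1, h2⟩, h4.trans h5.symm⟩, h4⟩
  have h9 : X.card ^ 2 ≤ Y.card * cnt c := by
    rw [h6, h7]
    exact_mod_cast sq_sum_le_card_mul_sum_sq (s := Y)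
      (f := fun y => ((X.filter fun x => hom c x = y).card : ℤ))
  have hXpos : 0 < X.card ^ 2 := by
    have : 0 < X.card := lt_of_lt_of_le hp hX
    positivity
  have h10 : p * X.card ^ 2 ≤ (D + 1) * Y.card * X.card ^ 2 := by
    calc p * X.card ^ 2 ≤ p * (Y.card * cnt c) := Nat.mul_le_mul_left _ h9
      _ = Y.card * (p * cnt c) := by ring
      _ ≤ Y.card * ((D + 1) * X.card ^ 2) := Nat.mul_le_mul_left _ hc
      _ = (D + 1) * Y.card * X.card ^ 2 := by ring
  exact Nat.le_of_mul_le_mul_right h10 hXpos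

/-- the greedy choice of translates -/
theorem greedy {p C : ℕ} [NeZero p] (Y : Finset (ZMod p)) (hY : p ≤ (C + 1) * Y.card) (n : ℕ) :
    ∃ T : Finset (ZMod p), T.card ≤ n ∧
      (Finset.univ.filter fun z => ∀ t ∈ T, z - t ∉ Y).card * (C + 1) ^ n ≤ p * C ^ n := by
  classical
  have hp : 0 < p := Nat.pos_of_ne_zero (NeZero.ne p)
  induction n with
  | zero =>
    refine ⟨∅, by simp, ?_⟩
    rw [pow_zero, pow_zero, mul_one, mul_one]
    refine (Finset.card_filter_le _ _).trans ?_
    rw [Finset.card_univ, ZMod.card]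
  | succ n ih =>
    obtain ⟨T, hT, hU⟩ := ih
    set U := Finset.univ.filter fun z => ∀ t ∈ T, z - t ∉ Y with hUdef
    have hsum : ∑ t : ZMod p, (U.filter fun z => z - t ∈ Y).card = U.card * Y.card := by
      simp only [Finset.card_filter]
      rw [Finset.sum_comm]
      have h1 : ∀ z ∈ U, ∑ t : ZMod p, (if z - t ∈ Y then 1 else 0) = Y.card := by
        intro z _
        rw [← Finset.card_filter]
        refine Finset.card_bij (fun t _ => z - t) ?_ ?_ ?_
        · intro t ht
          exact (Finset.mem_filter.mp ht).2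
        · intro t _ t' _ htt
          exact sub_right_injective htt
        · intro y hy
          exact ⟨z - y, by simp [hy], by simp⟩
      rw [Finset.sum_congr rfl h1, Finset.sum_const, smul_eq_mul]
    have hex : ∃ t : ZMod p, U.card * Y.card ≤ p * (U.filter fun z => z - t ∈ Y).card := by
      by_contra hcon
      push Not at hcon
      have h2 : ∑ t : ZMod p, p * (U.filter fun z => z - t ∈ Y).card <
          ∑ _t : ZMod p, U.card * Y.card :=
        Finset.sum_lt_sum_of_nonempty Finset.univ_nonempty fun t _ => hcon t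
      rw [← Finset.mul_sum, hsum, Finset.sum_const, Finset.card_univ, ZMod.card,
        smul_eq_mul] at h2
      exact lt_irrefl _ h2
    obtain ⟨t, ht⟩ := hex
    refine ⟨insert t T, (Finset.card_insert_le _ _).trans (by omega), ?_⟩
    have h3 : (Finset.univ.filter fun z => ∀ t' ∈ insert t T, z - t' ∉ Y) =
        U.filter fun z => ¬(z - t ∈ Y) := by
      ext z
      simp only [hUdef, Finset.mem_filter, Finset.mem_univ, true_and, Finset.mem_insert,
        forall_eq_or_imp]
      exact And.comm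
    rw [h3]
    have h4 := Finset.card_filter_add_card_filter_not (s := U) fun z => z - t ∈ Y
    have hYpos : 0 < Y.card := by
      rcases Nat.eq_zero_or_pos Y.card with h0 | h0
      · rw [h0, mul_zero] at hY
        omega
      · exact h0
    have h5 : U.card ≤ (C + 1) * (U.filter fun z => z - t ∈ Y).card := by
      have h6 : U.card * Y.card ≤ (C + 1) * (U.filter fun z => z - t ∈ Y).card * Y.card := by
        calc U.card * Y.card ≤ p * (U.filter fun z => z - t ∈ Y).card := ht
          _ ≤ (C + 1) * Y.card * (U.filter fun z => z - t ∈ Y).card := Nat.mul_le_mul_right _ hY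
          _ = _ := by ring
      exact Nat.le_of_mul_le_mul_right h6 hYpos
    have h7 : (U.filter fun z => ¬(z - t ∈ Y)).card * (C + 1) ≤ U.card * C := by
      nlinarith
    calc (U.filter fun z => ¬(z - t ∈ Y)).card * (C + 1) ^ (n + 1)
        = ((U.filter fun z => ¬(z - t ∈ Y)).card * (C + 1)) * (C + 1) ^ n := by ring
      _ ≤ (U.card * C) * (C + 1) ^ n := Nat.mul_le_mul_right _ h7
      _ = (U.card * (C + 1) ^ n) * C := by ring
      _ ≤ (p * C ^ n) * C := Nat.mul_le_mul_right _ hU
      _ = p * C ^ (n + 1) := by ring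

theorem bernoulli (C n : ℕ) : C ^ (n + 1) + (n + 1) * C ^ n ≤ (C + 1) ^ (n + 1) := by
  induction n with
  | zero => simp
  | succ n ih =>
    calc C ^ (n + 1 + 1) + (n + 1 + 1) * C ^ (n + 1)
        ≤ (C + 1) * (C ^ (n + 1) + (n + 1) * C ^ n) := by
          have : (C + 1) * (C ^ (n + 1) + (n + 1) * C ^ n) =
            C ^ (n + 1 + 1) + (n + 1 + 1) * C ^ (n + 1) + (n + 1) * C ^ n := by ring
          omega
      _ ≤ (C + 1) * (C + 1) ^ (n + 1) := Nat.mul_le_mul_left _ ih
      _ = (C + 1) ^ (n + 1 + 1) := by ring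

theorem cover {p C : ℕ} [NeZero p] (Y : Finset (ZMod p)) (hY : p ≤ (C + 1) * Y.card) :
    ∃ T : Finset (ZMod p), T.card ≤ (C + 1) * (Nat.log 2 p + 1) ∧ ∀ z, ∃ t ∈ T, z - t ∈ Y := by
  obtain ⟨T, hT, hU⟩ := greedy Y hY ((C + 1) * (Nat.log 2 p + 1))
  refine ⟨T, hT, fun z => ?_⟩
  by_contra hcon
  push Not at hcon
  have h1 : 0 < (Finset.univ.filter fun z => ∀ t ∈ T, z - t ∉ Y).card :=
    Finset.card_pos.mpr ⟨z, Finset.mem_filter.mpr ⟨Finset.mem_univ _, hcon⟩⟩
  have h2 : p < 2 ^ (Nat.log 2 p + 1) := Nat.lt_pow_succ_log_self (by norm_num) p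
  have h4 : 2 * C ^ (C + 1) ≤ (C + 1) ^ (C + 1) := by
    have h5 := bernoulli C C
    have h6 : (C + 1) * C ^ C = C ^ (C + 1) + C ^ C := by ring
    omega
  have h7 : 2 ^ (Nat.log 2 p + 1) * C ^ ((C + 1) * (Nat.log 2 p + 1)) ≤
      (C + 1) ^ ((C + 1) * (Nat.log 2 p + 1)) := by
    rw [pow_mul, pow_mul, ← mul_pow]
    exact Nat.pow_le_pow_left h4 _
  have h3 : (C + 1) ^ ((C + 1) * (Nat.log 2 p + 1)) ≤
      (Finset.univ.filter fun z => ∀ t ∈ T, z - t ∉ Y).card *
        (C + 1) ^ ((C + 1) * (Nat.log 2 p + 1)) :=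
    Nat.le_mul_of_pos_left _ h1
  have h8 : 2 ^ (Nat.log 2 p + 1) * C ^ ((C + 1) * (Nat.log 2 p + 1)) ≤
      p * C ^ ((C + 1) * (Nat.log 2 p + 1)) := (h7.trans h3).trans hU
  rcases Nat.eq_zero_or_pos (C ^ ((C + 1) * (Nat.log 2 p + 1))) with h9 | h9
  · rw [h9, mul_zero] at hU
    have h10 : 0 < (C + 1) ^ ((C + 1) * (Nat.log 2 p + 1)) := by positivity
    have h11 := Nat.mul_pos h1 h10
    omega
  · have := Nat.le_of_mul_le_mul_right h8 h9
    omega

/-- the construction modulo `p` -/
theorem gen_prop {υ : Fin g → ℤ} {φ : Fin h → ℤ} {i₀ : Fin g} {A₀ : Finset ℤ} {k p D : ℕ}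
    (hp : 0 < p) (hυp : IsUnit ((υ i₀ : ℤ) : ZMod p))
    (hsep : ∀ x ∈ im υ (A₀ : Set ℤ), ∀ y ∈ im υ (A₀ : Set ℤ), (x - y).natAbs ≤ D)
    (hpk : p ≤ (im υ (A₀ : Set ℤ)).ncard ^ k) :
    ∃ B : Set (ZMod p), im υ B = Set.univ ∧
      (im φ B).ncard ≤ (im φ (A₀ : Set ℤ)).ncard ^ k * ((D + 1) * (Nat.log 2 p + 1) + 1) ^ h := by
  classical
  have hne : NeZero p := ⟨hp.ne'⟩
  set V := (im_finite' υ A₀).toFinset with hV
  have hVmem : ∀ x, x ∈ V ↔ x ∈ im υ (A₀ : Set ℤ) := fun x => Set.Finite.mem_toFinset _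
  have hVc : V.card = (im υ (A₀ : Set ℤ)).ncard := (Set.ncard_eq_toFinset_card _ _).symm
  set F := (im_finite' φ A₀).toFinset with hF
  have hFmem : ∀ x, x ∈ F ↔ x ∈ im φ (A₀ : Set ℤ) := fun x => Set.Finite.mem_toFinset _
  have hFc : F.card = (im φ (A₀ : Set ℤ)).ncard := (Set.ncard_eq_toFinset_card _ _).symm
  set X : Finset (Fin k → ℤ) := Fintype.piFinset fun _ => V with hX
  have hXc : X.card = (im υ (A₀ : Set ℤ)).ncard ^ k := by
    rw [hX, Fintype.card_piFinset, ← hVc]
    simp
  obtain ⟨c, hc⟩ := exists_hom (p := p) (D := D) X (by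
    intro x hx y hy j
    exact hsep _ ((hVmem _).mp (Fintype.mem_piFinset.mp hx j)) _
      ((hVmem _).mp (Fintype.mem_piFinset.mp hy j))) (by rw [hXc]; exact hpk)
  obtain ⟨T, hT, hcov⟩ := cover _ hc
  have hυ0 : ((υ i₀ : ℤ) : ZMod p) * ((υ i₀ : ℤ) : ZMod p)⁻¹ = 1 :=
    ZMod.mul_inv_of_unit _ hυp
  set T' : Finset (ZMod p) := insert 0 (T.image fun t => (υ i₀ : ZMod p)⁻¹ * t) with hT'
  have hT'c : T'.card ≤ (D + 1) * (Nat.log 2 p + 1) + 1 := by
    refine (Finset.card_insert_le _ _).trans ?_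
    have := Finset.card_image_le (s := T) (f := fun t => (υ i₀ : ZMod p)⁻¹ * t)
    omega
  refine ⟨{b | ∃ x : Fin k → ℤ, (∀ j, x j ∈ A₀) ∧ ∃ t ∈ T', b = hom c x + t}, ?_, ?_⟩
  · refine Set.eq_univ_of_forall fun z => ?_
    obtain ⟨t, ht, hz⟩ := hcov z
    obtain ⟨x, hx, hxz⟩ := Finset.mem_image.mp hz
    have hx' : ∀ j, ∃ a : Fin g → ℤ, (∀ i, a i ∈ (A₀ : Set ℤ)) ∧ x j = ∑ i, υ i • a i :=
      fun j => (hVmem _).mp (Fintype.mem_piFinset.mp hx j)
    choose a ha hxa using hx'
    refine ⟨fun i => hom c (fun j => a j i) +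
      if i = i₀ then (υ i₀ : ZMod p)⁻¹ * t else 0, ?_, ?_⟩
    · intro i
      refine ⟨fun j => a j i, fun j => Finset.mem_coe.mp (ha j i), _, ?_, rfl⟩
      rw [hT']
      by_cases hi : i = i₀
      · rw [if_pos hi]
        exact Finset.mem_insert_of_mem (Finset.mem_image_of_mem _ ht)
      · rw [if_neg hi]
        exact Finset.mem_insert_self _ _
    · have h1 : hom c x = ∑ i, υ i • hom c (fun j => a j i) := by
        rw [← hom_sum c υ fun i j => a j i]
        congr 1
        funext j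
        exact hxa j
      simp only [smul_add, Finset.sum_add_distrib]
      rw [← h1, hxz, Finset.sum_eq_single i₀, if_pos rfl, zsmul_eq_mul, ← mul_assoc,
        hυ0, one_mul]
      · ring
      · intro i _ hi
        rw [if_neg hi, smul_zero]
      · intro h
        exact absurd (Finset.mem_univ _) h
  · set P : Finset (ZMod p) := (Fintype.piFinset fun _ : Fin k => F).image (hom c) with hP
    set R : Finset (ZMod p) := (Fintype.piFinset fun _ : Fin h => T').image
      fun t => ∑ i, φ i • t i with hR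
    have hPc : P.card ≤ (im φ (A₀ : Set ℤ)).ncard ^ k := by
      refine Finset.card_image_le.trans ?_
      rw [Fintype.card_piFinset, ← hFc]
      simp
    have hRc : R.card ≤ ((D + 1) * (Nat.log 2 p + 1) + 1) ^ h := by
      refine Finset.card_image_le.trans ?_
      rw [Fintype.card_piFinset]
      simp only [Finset.prod_const, Finset.card_univ, Fintype.card_fin]
      exact Nat.pow_le_pow_left hT'c h
    have hsub : im φ {b | ∃ x : Fin k → ℤ, (∀ j, x j ∈ A₀) ∧ ∃ t ∈ T', b = hom c x + t} ⊆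
        ((P ×ˢ R).image fun q => q.1 + q.2 : Finset (ZMod p)) := by
      rintro u ⟨b, hb, rfl⟩
      choose x hx t ht hbx using hb
      rw [Finset.mem_coe, Finset.mem_image]
      refine ⟨(∑ i, φ i • hom c (x i), ∑ i, φ i • t i), ?_, ?_⟩
      · rw [Finset.mem_product]
        refine ⟨?_, Finset.mem_image_of_mem _ (Fintype.mem_piFinset.mpr ht)⟩
        simp only
        rw [← hom_sum c φ x]
        refine Finset.mem_image_of_mem _ (Fintype.mem_piFinset.mpr fun j => ?_)
        rw [hFmem]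
        exact ⟨fun i => x i j, fun i => Finset.mem_coe.mpr (hx i j), rfl⟩
      · simp only
        rw [← Finset.sum_add_distrib]
        refine Finset.sum_congr rfl fun i _ => ?_
        rw [hbx i, smul_add]
    refine (Set.ncard_le_ncard hsub (Finset.finite_toSet _)).trans ?_
    rw [Set.ncard_coe_finset]
    refine Finset.card_image_le.trans ?_
    rw [Finset.card_product]
    exact Nat.mul_le_mul hPc hRc

end Pool.Agent.H73.HR
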